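import Pool.Agent.Lib.MP_e46711_an.H55.Tools

/-!
# MP_e46711_an, module C4: `ApproxStatement`
-/

open Set Filter Topology MeasureTheory
open scoped ContDiff

namespace Pool.Agent.Lib.MP_e46711_an.H55

open Pool.Agent.Lib.MP_e46711_an

/-- the standing situation on the ring -/
structure RCtx (P : Par) (ε L : ℝ) (h u F : ℝ → ℝ) : Prop where
  hε : 0 < ε
  hε1 : ε ≤ 1
  R : P.IsRing ε h
  hL : L ∈ Icc 0 P.L2
  S : Sol P.p L (P.ell ε) h u F

namespace RCtx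
variable {P : Par} {ε L : ℝ} {h u F : ℝ → ℝ} (Y : RCtx P ε L h u F)
include Y

lemma ctx : Ctx P.p L (P.ell ε) h u F where
  hp := P.hp0
  hp1 := P.hp1
  hL := Y.hL.1
  hℓ := by
    have := Y.hε
    have := P.hτ
    unfold Par.ell; positivity
  hc := Y.R.smooth.continuous
  hpos := Y.R.pos
  S := Y.S

lemma hε3 : 0 < ε ^ 3 := pow_pos Y.hε 3
lemma ε3le : ε ^ 3 ≤ ε := by
  have h1 := Y.hε
  have h2 := Y.hε1
  calc ε ^ 3 = ε * ε ^ 2 := by ring
    _ ≤ ε * 1 := mul_le_mul_of_nonneg_left (by nlinarith) h1.le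
    _ = ε := mul_one ε
lemma ε2le : ε ^ 2 ≤ ε := by
  have h1 := Y.hε
  have h2 := Y.hε1
  nlinarith

lemma uℓ : u (P.ell ε) = u 0 := by simpa using Y.S.per 0
lemma Fℓ : F (P.ell ε) = F 0 := by simpa using Y.S.perF 0

/-- `H`: the oscillation on the lump `H` -/
lemma oscH {C0 : ℝ} (hC0 : 0 ≤ C0) (hE : En h u 0 (P.ell ε) ≤ C0 / ε) :
    ∀ s ∈ Icc 0 (P.s1 ε) ∪ Icc (P.s14 ε) (P.ell ε), |u s - u 0| ≤ (1 + C0 / (2 * P.M)) * ε := by
  have h1 := Y.hε
  have h3 := Y.hε3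
  have hM := P.hM
  have hτ := P.hτ
  have hA : 0 ≤ C0 / (2 * P.M) := by positivity
  have fin : ∀ (s t a b : ℝ), 0 ≤ a → a ≤ b → b ≤ P.ell ε → b - a = ε / 2 → (∀ r ∈ Icc a b,
      h r = P.M / ε ^ 2) → s ∈ Icc a b → t ∈ Icc a b →
      |u s - u t| ≤ (1 + C0 / (2 * P.M)) * ε := by
    intro s t a b ha hab hb hl hk hs ht
    refine abs_le_of_sq hA h1.le ?_
    have := Y.ctx.osc2 (k := P.M / ε ^ 2) (by positivity) (fun r hr => (hk r hr).ge) hs ht
    have hE' : En h u a b ≤ C0 / ε := (Y.ctx.En_mono ha hab hb).trans hE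
    calc (u s - u t) ^ 2 ≤ (b - a) / (P.M / ε ^ 2) * En h u a b := this
      _ ≤ (b - a) / (P.M / ε ^ 2) * (C0 / ε) := by
        refine mul_le_mul_of_nonneg_left hE' ?_
        rw [hl]; positivity
      _ = C0 / (2 * P.M) * ε ^ 2 := by rw [hl]; field_simp
  rintro s (hs | hs)
  · refine fin s 0 0 (P.s1 ε) le_rfl (by unfold Par.s1; positivity) ?_ ?_ Y.R.hH hs ?_
    · unfold Par.s1 Par.ell; linarith
    · unfold Par.s1; ring
    · exact left_mem_Icc.2 (by unfold Par.s1; positivity)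
  · have := fin s (P.ell ε) (P.s14 ε) (P.ell ε) (by unfold Par.s14; positivity)
      (by unfold Par.s14 Par.ell; linarith) le_rfl (by unfold Par.s14 Par.ell; ring) Y.R.hH' hs
      (right_mem_Icc.2 (by unfold Par.s14 Par.ell; linarith))
    rwa [Y.uℓ] at this

lemma oscL {C0 : ℝ} (hC0 : 0 ≤ C0) (hE : En h u 0 (P.ell ε) ≤ C0 / ε) :
    ∀ s ∈ Icc (P.s4 ε) (P.s5 ε), |u s - u (P.s4 ε)| ≤ (1 + C0 / P.m) * ε := by
  have h1 := Y.hε
  have h3 := Y.hε3
  have hm := P.hm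
  have hτ := P.hτ
  have hA : 0 ≤ C0 / P.m := by positivity
  intro s hs
  have hl : P.s5 ε - P.s4 ε = ε := by unfold Par.s5 Par.s4; ring
  refine abs_le_of_sq hA h1.le ?_
  have := Y.ctx.osc2 (k := P.m / ε ^ 2) (by positivity) (fun r hr => (Y.R.hL r hr).ge) hs
    (left_mem_Icc.2 (hs.1.trans hs.2))
  have hE' : En h u (P.s4 ε) (P.s5 ε) ≤ C0 / ε := (Y.ctx.En_mono
    (by unfold Par.s4; positivity) (hs.1.trans hs.2) (by unfold Par.s5 Par.ell; linarith)).trans hE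
  calc _ ≤ (P.s5 ε - P.s4 ε) / (P.m / ε ^ 2) * En h u (P.s4 ε) (P.s5 ε) := this
    _ ≤ (P.s5 ε - P.s4 ε) / (P.m / ε ^ 2) * (C0 / ε) := by
      refine mul_le_mul_of_nonneg_left hE' ?_
      rw [hl]; positivity
    _ = C0 / P.m * ε ^ 2 := by rw [hl]; field_simp

lemma avH {D : ℝ} (hD : ∀ s ∈ Icc 0 (P.s1 ε) ∪ Icc (P.s14 ε) (P.ell ε), |u s - u 0| ≤ D) :
    |P.av ε u - u 0| ≤ D := by
  have h1 := Y.hε
  have key : ∀ a b : ℝ, a ≤ b → (∀ s ∈ Icc a b, |u s - u 0| ≤ D) →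
      |(∫ s in a..b, u s) - (b - a) * u 0| ≤ D * (b - a) := by
    intro a b hab hh
    have e : (∫ s in a..b, u s) - (b - a) * u 0 = ∫ s in a..b, (u s - u 0) := by
      rw [intervalIntegral.integral_sub (Y.ctx.cu.intervalIntegrable _ _)
        (continuous_const.intervalIntegrable _ _), intervalIntegral.integral_const, smul_eq_mul]
    rw [e]
    calc |∫ s in a..b, (u s - u 0)| ≤ ∫ s in a..b, |u s - u 0| :=
          intervalIntegral.abs_integral_le_integral_abs hab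
      _ ≤ ∫ s in a..b, D := intervalIntegral.integral_mono_on hab
          ((Y.ctx.cu.sub continuous_const).abs.intervalIntegrable _ _)
          (continuous_const.intervalIntegrable _ _) hh
      _ = D * (b - a) := by rw [intervalIntegral.integral_const, smul_eq_mul]; ring
  have k1 := key 0 (P.s1 ε) (by unfold Par.s1; positivity) fun s hs => hD s (Or.inl hs)
  have k2 := key (P.s14 ε) (P.ell ε) (by unfold Par.s14 Par.ell; linarith)
    fun s hs => hD s (Or.inr hs)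
  have l1 : P.s1 ε - 0 = ε / 2 := by unfold Par.s1; ring
  have l2 : P.ell ε - P.s14 ε = ε / 2 := by unfold Par.s14 Par.ell; ring
  rw [l1] at k1
  rw [l2] at k2
  have e : P.av ε u - u 0 = (((∫ s in (0:ℝ)..(P.s1 ε), u s) - ε / 2 * u 0)
      + ((∫ s in (P.s14 ε)..(P.ell ε), u s) - ε / 2 * u 0)) / ε := by
    unfold Par.av; field_simp; ring
  rw [e, abs_div, abs_of_pos h1, div_le_iff₀ h1]
  calc _ ≤ _ := abs_add_le _ _
    _ ≤ D * (ε / 2) + D * (ε / 2) := add_le_add k1 k2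
    _ = D * ε := by ring

lemma avL {D : ℝ} (hD : ∀ s ∈ Icc (P.s4 ε) (P.s5 ε), |u s - u (P.s4 ε)| ≤ D) :
    |P.bv ε u - u (P.s4 ε)| ≤ D := by
  have h1 := Y.hε
  have hl : P.s5 ε - P.s4 ε = ε := by unfold Par.s5 Par.s4; ring
  have hab : P.s4 ε ≤ P.s5 ε := by linarith
  have e : P.bv ε u - u (P.s4 ε) = (∫ s in (P.s4 ε)..(P.s5 ε), (u s - u (P.s4 ε))) / ε := by
    rw [intervalIntegral.integral_sub (Y.ctx.cu.intervalIntegrable _ _)
        (continuous_const.intervalIntegrable _ _), intervalIntegral.integral_const, smul_eq_mul,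
        hl]
    unfold Par.bv
    field_simp
  rw [e, abs_div, abs_of_pos h1, div_le_iff₀ h1]
  calc |∫ s in (P.s4 ε)..(P.s5 ε), (u s - u (P.s4 ε))|
      ≤ ∫ s in (P.s4 ε)..(P.s5 ε), |u s - u (P.s4 ε)| :=
          intervalIntegral.abs_integral_le_integral_abs hab
      _ ≤ ∫ s in (P.s4 ε)..(P.s5 ε), D := intervalIntegral.integral_mono_on hab
          ((Y.ctx.cu.sub continuous_const).abs.intervalIntegrable _ _)
          (continuous_const.intervalIntegrable _ _) hD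
      _ = D * ε := by rw [intervalIntegral.integral_const, smul_eq_mul, hl]; ring

/-- `h ≥ 1` on `[s1, s4]` -/
lemma h14 : ∀ r ∈ Icc (P.s1 ε) (P.s4 ε), 1 ≤ h r := by
  intro r hr
  rcases le_total r (P.s2 ε) with h2 | h2
  · exact (Y.R.hJ1 r ⟨hr.1, h2⟩).1
  · rcases le_total r (P.s3 ε) with h3 | h3
    · exact (Y.R.hN1 r ⟨h2, h3⟩).ge
    · exact (Y.R.hJ2 r ⟨h3, hr.2⟩).1

/-- the mass of `[s1, s4]` -/
lemma mass14 : (∫ r in (P.s1 ε)..(P.s4 ε), h r) ≤ 2 * ε := by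
  have h1 := Y.hε
  have h3 := Y.hε3
  have i : ∀ x y : ℝ, IntervalIntegrable h volume x y := fun x y =>
    Y.ctx.hc.intervalIntegrable _ _
  rw [← intervalIntegral.integral_add_adjacent_intervals (i (P.s1 ε) (P.s2 ε)) (i _ _),
    ← intervalIntegral.integral_add_adjacent_intervals (i (P.s2 ε) (P.s3 ε)) (i _ _)]
  have l1 : P.s2 ε - P.s1 ε = ε ^ 3 := by unfold Par.s1 Par.s2; ring
  have l2 : P.s3 ε - P.s2 ε = ε := by unfold Par.s3 Par.s2; ring
  have l3 : P.s4 ε - P.s3 ε = ε ^ 3 := by unfold Par.s3 Par.s4; ring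
  have m1 := Y.ctx.mass_le (by linarith : P.s1 ε ≤ P.s2 ε) fun r hr => (Y.R.hJ1 r hr).2
  have m2 := Y.ctx.mass_le (by linarith : P.s2 ε ≤ P.s3 ε) fun r hr => (Y.R.hN1 r hr).le
  have m3 := Y.ctx.mass_le (by linarith : P.s3 ε ≤ P.s4 ε) fun r hr => (Y.R.hJ2 r hr).2
  rw [l1] at m1
  rw [l2] at m2
  rw [l3] at m3
  have e1 : P.M / ε ^ 2 * ε ^ 3 = P.M * ε := by field_simp
  have e3 : P.m / ε ^ 2 * ε ^ 3 = P.m * ε := by field_simp
  have hMm := P.hMm
  have : P.M * ε + P.m * ε = ε := by rw [← add_mul, hMm, one_mul]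
  linarith

lemma mass56 : (∫ r in (P.s5 ε)..(P.s6 ε), h r) ≤ P.m * ε := by
  have h1 := Y.hε
  have h3 := Y.hε3
  have l1 : P.s6 ε - P.s5 ε = ε ^ 3 := by unfold Par.s5 Par.s6; ring
  have m1 := Y.ctx.mass_le (by linarith : P.s5 ε ≤ P.s6 ε) fun r hr => (Y.R.hJ3 r hr).2
  rw [l1] at m1
  have e1 : P.m / ε ^ 2 * ε ^ 3 = P.m * ε := by field_simp
  linarith

lemma mass67 : (∫ r in (P.s6 ε)..(P.s7 ε), h r) ≤ P.c * ε ^ 3 := by
  have h1 := Y.hε
  have l1 : P.s7 ε - P.s6 ε = ε := by unfold Par.s7 Par.s6; ring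
  have m1 := Y.ctx.mass_le (by linarith : P.s6 ε ≤ P.s7 ε) fun r hr => (Y.R.hN2 r hr).le
  rw [l1] at m1
  have e1 : P.c * ε ^ 2 * ε = P.c * ε ^ 3 := by ring
  linarith

lemma mass12 : (∫ r in (P.s12 ε)..(P.s14 ε), h r) ≤ (P.a + P.M) * ε := by
  have h1 := Y.hε
  have h2 := Y.ε2le
  have h3 := Y.hε3
  have ha : 0 < P.a := by linarith [P.hL0, P.hL01, P.hL12, P.ha]
  have i : ∀ x y : ℝ, IntervalIntegrable h volume x y := fun x y =>
    Y.ctx.hc.intervalIntegrable _ _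
  rw [← intervalIntegral.integral_add_adjacent_intervals (i (P.s12 ε) (P.s13 ε)) (i _ _)]
  have l1 : P.s13 ε - P.s12 ε = ε := by unfold Par.s13 Par.s12; ring
  have l2 : P.s14 ε - P.s13 ε = ε ^ 3 := by unfold Par.s13 Par.s14; ring
  have m1 := Y.ctx.mass_le (by linarith : P.s12 ε ≤ P.s13 ε) fun r hr => (Y.R.hN3 r hr).le
  have m2 := Y.ctx.mass_le (by linarith : P.s13 ε ≤ P.s14 ε) fun r hr => (Y.R.hJ7 r hr).2
  rw [l1] at m1
  rw [l2] at m2
  have e1 : P.M / ε ^ 2 * ε ^ 3 = P.M * ε := by field_simp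
  have e2 : P.a * ε * ε ≤ P.a * ε := by nlinarith
  linarith

end RCtx

/-- linear approximation where `1 ≤ h` -/
lemma Ctx.lin {p L ℓ : ℝ} {h u F : ℝ → ℝ} (X : Ctx p L ℓ h u F) {a t D : ℝ} (hat : a ≤ t)
    (h1 : ∀ r ∈ Icc a t, 1 ≤ h r) (hD : ∀ r ∈ Icc a t, |F r - F a| ≤ D) :
    |u t - u a - F a * ∫ r in a..t, 1 / h r| ≤ D * (t - a) := by
  have c1 : Continuous fun r => F a * (1 / h r) := continuous_const.mul X.c1h
  have c2 : Continuous fun r => (F r - F a) / h r :=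
    (X.cF.sub continuous_const).div X.hc fun s => (X.hpos s).ne'
  have e : u t - u a - F a * ∫ r in a..t, 1 / h r = ∫ r in a..t, (F r - F a) / h r := by
    rw [X.diff_u, ← intervalIntegral.integral_const_mul,
      ← intervalIntegral.integral_sub (X.cFh.intervalIntegrable _ _)
        (c1.intervalIntegrable _ _)]
    refine intervalIntegral.integral_congr fun r _ => ?_
    show F r / h r - F a * (1 / h r) = (F r - F a) / h r
    ring
  rw [e]
  calc |∫ r in a..t, (F r - F a) / h r| ≤ ∫ r in a..t, |(F r - F a) / h r| :=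
        intervalIntegral.abs_integral_le_integral_abs hat
    _ ≤ ∫ r in a..t, D := by
        refine intervalIntegral.integral_mono_on hat (c2.abs.intervalIntegrable _ _)
          (continuous_const.intervalIntegrable _ _) fun r hr => ?_
        rw [abs_div, abs_of_pos (X.hpos r), div_le_iff₀ (X.hpos r)]
        have h2 := h1 r hr
        have h3 := hD r hr
        have h4 := abs_nonneg (F r - F a)
        nlinarith
    _ = D * (t - a) := by rw [intervalIntegral.integral_const, smul_eq_mul]; ring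

/-- the part `[s1, s4]` -/
lemma neckN1 (P : Par) {K C0 D : ℝ} (hK : 0 ≤ K) (hC0 : 0 ≤ C0) (hD : 0 ≤ D) :
    ∃ C, 0 ≤ C ∧ ∀ (ε L : ℝ) (h u F : ℝ → ℝ), RCtx P ε L h u F → En h u 0 (P.ell ε) ≤ C0 / ε →
      |u 0| ≤ K → |u (P.s4 ε)| ≤ K → |u (P.s1 ε) - u 0| ≤ D * ε →
      |ε * F (P.s1 ε) - (u (P.s4 ε) - u 0)| ≤ C * ε ∧ |F (P.s4 ε) - F (P.s1 ε)| ≤ C * ε ∧
      ∀ s ∈ Icc (P.s1 ε) (P.s4 ε), min (u 0) (u (P.s4 ε)) - C * ε ≤ u s := by
  set U := K + D + 1 + 3 * C0 with hU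
  set D1 := P.L2 * (1 + 2 * U) * 2 with hD1
  set B := 2 * K + D + 3 * D1 with hB
  have hL2 : 0 < P.L2 := by linarith [P.hL0, P.hL01, P.hL12]
  have hU0 : 0 ≤ U := by positivity
  have hD10 : 0 ≤ D1 := by positivity
  have hB0 : 0 ≤ B := by positivity
  refine ⟨2 * B + 6 * D1 + D, by positivity, ?_⟩
  intro ε L h u F Y hE hx hy h01
  have h1 := Y.hε
  have h11 := Y.hε1
  have h3 := Y.hε3
  have h31 := Y.ε3le
  have h2 := Y.ε2le
  have X := Y.ctx
  have hτ := P.hτ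
  have l14 : P.s4 ε - P.s1 ε = ε + 2 * ε ^ 3 := by unfold Par.s4 Par.s1; ring
  have ls1 : 0 ≤ P.s1 ε := by unfold Par.s1; positivity
  have ls4 : P.s4 ε ≤ P.ell ε := by unfold Par.s4 Par.ell; linarith
  have h14 : P.s1 ε ≤ P.s4 ε := by linarith
  -- bound of u
  have hu : ∀ s ∈ Icc (P.s1 ε) (P.s4 ε), |u s| ≤ U := by
    intro s hs
    have o := X.osc2 (k := 1) one_pos Y.h14 hs (left_mem_Icc.2 h14)
    have hE' : En h u (P.s1 ε) (P.s4 ε) ≤ C0 / ε := (X.En_mono ls1 h14 ls4).trans hE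
    have hb : |u s - u (P.s1 ε)| ≤ (1 + 3 * C0) * 1 := by
      refine abs_le_of_sq (by positivity) zero_le_one ?_
      calc _ ≤ (P.s4 ε - P.s1 ε) / 1 * En h u (P.s1 ε) (P.s4 ε) := o
        _ ≤ (3 * ε) * (C0 / ε) := by
          refine mul_le_mul ?_ hE' (X.En_nonneg h14) (by positivity)
          rw [div_one, l14]; linarith
        _ = 3 * C0 * 1 ^ 2 := by field_simp
    have e : u s = (u s - u (P.s1 ε)) + (u (P.s1 ε) - u 0) + u 0 := by ring
    rw [e]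
    have t1 := abs_add_le ((u s - u (P.s1 ε)) + (u (P.s1 ε) - u 0)) (u 0)
    have t2 := abs_add_le (u s - u (P.s1 ε)) (u (P.s1 ε) - u 0)
    have t3 : D * ε ≤ D := by nlinarith
    linarith
  have hg : ∀ s ∈ Icc (P.s1 ε) (P.s4 ε), |gg P.p (u s)| ≤ 1 + 2 * U := fun s hs =>
    (abs_gg_le P.hp0 P.hp1 _).trans (by linarith [hu s hs])
  have hF : ∀ s ∈ Icc (P.s1 ε) (P.s4 ε), |F s - F (P.s1 ε)| ≤ D1 * ε := by
    intro s hs
    have := X.flux_le hs.1 fun r hr => hg r ⟨hr.1, hr.2.trans hs.2⟩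
    have hm := (X.mass_mono le_rfl hs.1 hs.2).trans Y.mass14
    calc _ ≤ L * (1 + 2 * U) * ∫ r in (P.s1 ε)..s, h r := this
      _ ≤ P.L2 * (1 + 2 * U) * (2 * ε) :=
        mul_le_mul (mul_le_mul_of_nonneg_right Y.hL.2 (by positivity)) hm
          (X.mass_nonneg hs.1) (by positivity)
      _ = D1 * ε := by rw [hD1]; ring
  have hlin : ∀ s ∈ Icc (P.s1 ε) (P.s4 ε),
      |u s - u (P.s1 ε) - F (P.s1 ε) * ∫ r in (P.s1 ε)..s, 1 / h r| ≤ 3 * D1 * ε ^ 2 := by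
    intro s hs
    have := X.lin hs.1 (fun r hr => Y.h14 r ⟨hr.1, hr.2.trans hs.2⟩)
      fun r hr => hF r ⟨hr.1, hr.2.trans hs.2⟩
    calc _ ≤ D1 * ε * (s - P.s1 ε) := this
      _ ≤ D1 * ε * (3 * ε) := mul_le_mul_of_nonneg_left (by linarith [hs.2]) (by positivity)
      _ = _ := by ring
  -- resistance
  have i : ∀ x y : ℝ, IntervalIntegrable (fun r => 1 / h r) volume x y := fun x y =>
    X.c1h.intervalIntegrable _ _
  have n : ∀ x y : ℝ, x ≤ y → 0 ≤ ∫ r in x..y, 1 / h r := fun x y hxy =>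
    intervalIntegral.integral_nonneg hxy fun r _ => one_div_nonneg.2 (X.hpos r).le
  set r1 := ∫ r in (P.s1 ε)..(P.s4 ε), 1 / h r with hr1
  have r1up : r1 ≤ ε + 2 * ε ^ 3 := by
    have : r1 ≤ ∫ r in (P.s1 ε)..(P.s4 ε), (1:ℝ) := by
      refine intervalIntegral.integral_mono_on h14 (i _ _)
        (continuous_const.intervalIntegrable _ _) fun r hr => ?_
      rw [div_le_one (X.hpos r)]
      exact Y.h14 r hr
    rw [intervalIntegral.integral_const, smul_eq_mul, l14, mul_one] at this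
    exact this
  have l12 : P.s2 ε - P.s1 ε = ε ^ 3 := by unfold Par.s1 Par.s2; ring
  have l23 : P.s3 ε - P.s2 ε = ε := by unfold Par.s3 Par.s2; ring
  have l34 : P.s4 ε - P.s3 ε = ε ^ 3 := by unfold Par.s3 Par.s4; ring
  have r1lo : ε ≤ r1 := by
    rw [hr1, ← intervalIntegral.integral_add_adjacent_intervals (i (P.s1 ε) (P.s2 ε)) (i _ _),
      ← intervalIntegral.integral_add_adjacent_intervals (i (P.s2 ε) (P.s3 ε)) (i _ _)]
    have e : (∫ r in (P.s2 ε)..(P.s3 ε), 1 / h r) = ε := by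
      have : (∫ r in (P.s2 ε)..(P.s3 ε), 1 / h r) = ∫ r in (P.s2 ε)..(P.s3 ε), (1:ℝ) := by
        refine intervalIntegral.integral_congr fun r hr => ?_
        rw [uIcc_of_le (by linarith)] at hr
        show 1 / h r = 1
        rw [Y.R.hN1 r hr, div_one]
      rw [this, intervalIntegral.integral_const, smul_eq_mul, l23, mul_one]
    rw [e]
    linarith [n (P.s1 ε) (P.s2 ε) (by linarith), n (P.s3 ε) (P.s4 ε) (by linarith)]
  have h4 := hlin (P.s4 ε) (right_mem_Icc.2 h14)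
  rw [← hr1] at h4
  -- bound of ε |F s1|
  have hFb : ε * |F (P.s1 ε)| ≤ B := by
    have t : |F (P.s1 ε)| * r1 ≤ B := by
      have e : F (P.s1 ε) * r1 = (u (P.s4 ε) - u 0) - (u (P.s1 ε) - u 0)
          - (u (P.s4 ε) - u (P.s1 ε) - F (P.s1 ε) * r1) := by ring
      have e' : |F (P.s1 ε)| * r1 = |F (P.s1 ε) * r1| := by
        rw [abs_mul, abs_of_pos (h1.trans_le r1lo)]
      rw [e', e]
      have t1 := abs_sub ((u (P.s4 ε) - u 0) - (u (P.s1 ε) - u 0))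
        (u (P.s4 ε) - u (P.s1 ε) - F (P.s1 ε) * r1)
      have t2 := abs_sub (u (P.s4 ε) - u 0) (u (P.s1 ε) - u 0)
      have t3 := abs_sub (u (P.s4 ε)) (u 0)
      have t4 : D * ε ≤ D := by nlinarith
      have t5 : 3 * D1 * ε ^ 2 ≤ 3 * D1 := by nlinarith
      rw [hB]
      linarith
    calc ε * |F (P.s1 ε)| = |F (P.s1 ε)| * ε := by ring
      _ ≤ |F (P.s1 ε)| * r1 := mul_le_mul_of_nonneg_left r1lo (abs_nonneg _)
      _ ≤ B := t
  refine ⟨?_, ?_, ?_⟩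
  · have e : ε * F (P.s1 ε) - (u (P.s4 ε) - u 0) = - (F (P.s1 ε) * (r1 - ε))
        + - (u (P.s4 ε) - u (P.s1 ε) - F (P.s1 ε) * r1) + - (u (P.s1 ε) - u 0) := by ring
    have t1 : |F (P.s1 ε) * (r1 - ε)| ≤ 2 * B * ε := by
      rw [abs_mul, abs_of_nonneg (by linarith : 0 ≤ r1 - ε)]
      calc |F (P.s1 ε)| * (r1 - ε) ≤ |F (P.s1 ε)| * (2 * ε ^ 3) :=
            mul_le_mul_of_nonneg_left (by linarith) (abs_nonneg _)
        _ = (ε * |F (P.s1 ε)|) * (2 * ε ^ 2) := by ring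
        _ ≤ B * (2 * ε) := mul_le_mul hFb (by linarith) (by positivity) hB0
        _ = 2 * B * ε := by ring
    have t2 : 3 * D1 * ε ^ 2 ≤ 3 * D1 * ε := mul_le_mul_of_nonneg_left h2 (by positivity)
    rw [e]
    have a1 := abs_add_le (- (F (P.s1 ε) * (r1 - ε))
        + - (u (P.s4 ε) - u (P.s1 ε) - F (P.s1 ε) * r1)) (- (u (P.s1 ε) - u 0))
    have a2 := abs_add_le (- (F (P.s1 ε) * (r1 - ε)))
      (- (u (P.s4 ε) - u (P.s1 ε) - F (P.s1 ε) * r1))
    rw [abs_neg] at a1 a2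
    rw [abs_neg] at a2
    have : 0 ≤ D1 * ε := by positivity
    linarith
  · have := hF (P.s4 ε) (right_mem_Icc.2 h14)
    have b1 : 0 ≤ D1 * ε := by positivity
    have b2 : 0 ≤ B * ε := by positivity
    have b3 : 0 ≤ D * ε := by positivity
    linarith
  · intro s hs
    have hs4 := hlin s hs
    set rs := ∫ r in (P.s1 ε)..s, 1 / h r with hrs
    have rs0 : 0 ≤ rs := n _ _ hs.1
    have rs1 : rs ≤ r1 := by
      rw [hr1, ← intervalIntegral.integral_add_adjacent_intervals (i (P.s1 ε) s) (i _ _)]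
      linarith [n s (P.s4 ε) hs.2]
    have t2 : 3 * D1 * ε ^ 2 ≤ 3 * D1 * ε := mul_le_mul_of_nonneg_left h2 (by positivity)
    have b2 : 0 ≤ B * ε := by positivity
    have b3 : 0 ≤ D * ε := by positivity
    have a1 := (abs_le.1 hs4).1
    have a2 := (abs_le.1 h4).2
    have a3 := (abs_le.1 h01).1
    rcases le_total 0 (F (P.s1 ε)) with hF0 | hF0
    · have m1 := min_le_left (u 0) (u (P.s4 ε))
      have := mul_nonneg hF0 rs0
      have b1 : 0 ≤ D1 * ε := by positivity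
      linarith
    · have m1 := min_le_right (u 0) (u (P.s4 ε))
      have : F (P.s1 ε) * r1 ≤ F (P.s1 ε) * rs := mul_le_mul_of_nonpos_left rs1 hF0
      linarith

/-- the flux at `s5` -/
lemma fluxS5 (P : Par) {K C0 : ℝ} (hK : 0 ≤ K) (hC0 : 0 ≤ C0) :
    ∃ C, 0 ≤ C ∧ ∀ (ε L : ℝ) (h u F : ℝ → ℝ), RCtx P ε L h u F → En h u 0 (P.ell ε) ≤ C0 / ε →
      |u (P.s5 ε)| ≤ K → |F (P.s5 ε)| ≤ C := by
  have hc := P.hc
  have hL2 : 0 < P.L2 := by linarith [P.hL0, P.hL01, P.hL12]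
  have hm := P.hm
  set U2 := K + 1 + C0 / P.c with hU2
  set U3 := K + 1 + 2 * C0 / P.c with hU3
  set D2 := P.L2 * ((1 + 2 * U2) * P.m + (1 + 2 * U3) * P.c) with hD2
  have hU20 : 0 ≤ U2 := by positivity
  have hU30 : 0 ≤ U3 := by positivity
  have hD20 : 0 ≤ D2 := by positivity
  refine ⟨1 + (2 * P.c * C0 + 2 * D2 ^ 2), by positivity, ?_⟩
  intro ε L h u F Y hE hy
  have h1 := Y.hε
  have h11 := Y.hε1
  have h3 := Y.hε3
  have h31 := Y.ε3le
  have h2 := Y.ε2le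
  have X := Y.ctx
  have hτ := P.hτ
  have l56 : P.s6 ε - P.s5 ε = ε ^ 3 := by unfold Par.s5 Par.s6; ring
  have l67 : P.s7 ε - P.s6 ε = ε := by unfold Par.s6 Par.s7; ring
  have ls5 : 0 ≤ P.s5 ε := by unfold Par.s5; positivity
  have ls7 : P.s7 ε ≤ P.ell ε := by unfold Par.s7 Par.ell; linarith
  have h56 : P.s5 ε ≤ P.s6 ε := by linarith
  have h67 : P.s6 ε ≤ P.s7 ε := by linarith
  have hh56 : ∀ r ∈ Icc (P.s5 ε) (P.s6 ε), P.c * ε ^ 2 ≤ h r := fun r hr => (Y.R.hJ3 r hr).1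
  have hh57 : ∀ r ∈ Icc (P.s5 ε) (P.s7 ε), P.c * ε ^ 2 ≤ h r := by
    intro r hr
    rcases le_total r (P.s6 ε) with h6 | h6
    · exact hh56 r ⟨hr.1, h6⟩
    · exact (Y.R.hN2 r ⟨h6, hr.2⟩).ge
  -- bounds of u
  have hu56 : ∀ s ∈ Icc (P.s5 ε) (P.s6 ε), |u s| ≤ U2 := by
    intro s hs
    have o := X.osc2 (k := P.c * ε ^ 2) (by positivity) hh56 hs (left_mem_Icc.2 h56)
    have hE' : En h u (P.s5 ε) (P.s6 ε) ≤ C0 / ε := (X.En_mono ls5 h56 (h67.trans ls7)).trans hE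
    have hb : |u s - u (P.s5 ε)| ≤ (1 + C0 / P.c) * 1 := by
      refine abs_le_of_sq (by positivity) zero_le_one ?_
      calc _ ≤ (P.s6 ε - P.s5 ε) / (P.c * ε ^ 2) * En h u (P.s5 ε) (P.s6 ε) := o
        _ ≤ (P.s6 ε - P.s5 ε) / (P.c * ε ^ 2) * (C0 / ε) := by
          refine mul_le_mul_of_nonneg_left hE' ?_
          rw [l56]; positivity
        _ = C0 / P.c * 1 ^ 2 := by rw [l56]; field_simp
    have e : u s = (u s - u (P.s5 ε)) + u (P.s5 ε) := by ring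
    rw [e]
    have t1 := abs_add_le (u s - u (P.s5 ε)) (u (P.s5 ε))
    linarith
  have hu57 : ∀ s ∈ Icc (P.s5 ε) (P.s7 ε), |u s| ≤ U3 / ε := by
    intro s hs
    have o := X.osc2 (k := P.c * ε ^ 2) (by positivity) hh57 hs (left_mem_Icc.2 (h56.trans h67))
    have hE' : En h u (P.s5 ε) (P.s7 ε) ≤ C0 / ε :=
      (X.En_mono ls5 (h56.trans h67) ls7).trans hE
    have hb : |u s - u (P.s5 ε)| ≤ (1 + 2 * C0 / P.c) * (1 / ε) := by
      refine abs_le_of_sq (by positivity) (by positivity) ?_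
      calc _ ≤ (P.s7 ε - P.s5 ε) / (P.c * ε ^ 2) * En h u (P.s5 ε) (P.s7 ε) := o
        _ ≤ (2 * ε) / (P.c * ε ^ 2) * (C0 / ε) := by
          refine mul_le_mul ?_ hE' (X.En_nonneg (h56.trans h67)) (by positivity)
          exact div_le_div_of_nonneg_right (by linarith) (by positivity)
        _ = 2 * C0 / P.c * (1 / ε) ^ 2 := by field_simp
    have e : u s = (u s - u (P.s5 ε)) + u (P.s5 ε) := by ring
    rw [e]
    have t1 := abs_add_le (u s - u (P.s5 ε)) (u (P.s5 ε))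
    have t2 : K ≤ K * (1 / ε) := by
      have : 1 ≤ 1 / ε := by rw [le_div_iff₀ h1]; linarith
      nlinarith
    calc _ ≤ _ := t1
      _ ≤ (1 + 2 * C0 / P.c) * (1 / ε) + K * (1 / ε) := by linarith
      _ = U3 / ε := by rw [hU3]; ring
  have hF : ∀ s ∈ Icc (P.s6 ε) (P.s7 ε), |F (P.s5 ε) - F s| ≤ D2 := by
    intro s hs
    have f1 := X.flux_le h56 fun r hr => (abs_gg_le P.hp0 P.hp1 (u r)).trans
      (by linarith [hu56 r hr] : _ ≤ 1 + 2 * U2)
    have f2 := X.flux_le hs.1 fun r hr => (abs_gg_le P.hp0 P.hp1 (u r)).trans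
      (show 1 + 2 * |u r| ≤ (1 + 2 * U3) / ε by
        have := hu57 r ⟨h56.trans hr.1, hr.2.trans hs.2⟩
        have t : 1 ≤ 1 / ε := by rw [le_div_iff₀ h1]; linarith
        calc 1 + 2 * |u r| ≤ 1 / ε + 2 * (U3 / ε) := by linarith
          _ = _ := by ring)
    have g1 : L * (1 + 2 * U2) * (∫ r in (P.s5 ε)..(P.s6 ε), h r)
        ≤ P.L2 * (1 + 2 * U2) * P.m := by
      refine mul_le_mul (mul_le_mul_of_nonneg_right Y.hL.2 (by positivity)) ?_
          (X.mass_nonneg h56) (by positivity)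
      have := Y.mass56
      nlinarith
    have g2 : L * ((1 + 2 * U3) / ε) * (∫ r in (P.s6 ε)..s, h r)
        ≤ P.L2 * (1 + 2 * U3) * P.c := by
      have hm := (X.mass_mono le_rfl hs.1 hs.2).trans Y.mass67
      calc L * ((1 + 2 * U3) / ε) * (∫ r in (P.s6 ε)..s, h r)
          ≤ P.L2 * ((1 + 2 * U3) / ε) * (P.c * ε ^ 3) :=
            mul_le_mul (mul_le_mul_of_nonneg_right Y.hL.2 (by positivity)) hm
              (X.mass_nonneg hs.1) (by positivity)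
        _ = P.L2 * (1 + 2 * U3) * P.c * ε ^ 2 := by field_simp
        _ ≤ P.L2 * (1 + 2 * U3) * P.c * 1 :=
            mul_le_mul_of_nonneg_left (by linarith) (by positivity)
        _ = _ := mul_one _
    have e : F (P.s5 ε) - F s = - (F (P.s6 ε) - F (P.s5 ε)) + - (F s - F (P.s6 ε)) := by ring
    rw [e]
    have a1 := abs_add_le (- (F (P.s6 ε) - F (P.s5 ε))) (- (F s - F (P.s6 ε)))
    rw [abs_neg, abs_neg] at a1
    rw [hD2]
    linarith
  have hn := X.neck (c := P.s5 ε) (k := P.c * ε ^ 2) (D := D2) (E := C0 / ε)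
    (by linarith : P.s6 ε < P.s7 ε) (fun r hr => (Y.R.hN2 r hr).le) hF
    ((X.En_mono (ls5.trans h56) h67 ls7).trans hE)
  rw [l67] at hn
  have hn2 : F (P.s5 ε) ^ 2 ≤ (2 * P.c * C0 + 2 * D2 ^ 2) * 1 ^ 2 := by
    have e : 2 * (P.c * ε ^ 2) * (C0 / ε) + 2 * D2 ^ 2 * ε
        = ε * (2 * P.c * C0 + 2 * D2 ^ 2) := by field_simp
    rw [e] at hn
    have := le_of_mul_le_mul_left hn h1
    linarith
  have := abs_le_of_sq (by positivity) zero_le_one hn2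
  linarith

/-- the flux at `s14` -/
lemma fluxS14 (P : Par) {K C0 : ℝ} (hK : 0 ≤ K) (hC0 : 0 ≤ C0) :
    ∃ C, 0 ≤ C ∧ ∀ (ε L : ℝ) (h u F : ℝ → ℝ), RCtx P ε L h u F → En h u 0 (P.ell ε) ≤ C0 / ε →
      |u (P.s14 ε)| ≤ K → |F (P.s14 ε)| * √ε ≤ C := by
  have hL2 : 0 < P.L2 := by linarith [P.hL0, P.hL01, P.hL12]
  have ha : 0 < P.a := by linarith [P.ha]
  have hM := P.hM
  set U4 := K + 1 + 2 * C0 / P.a with hU4
  set D4 := P.L2 * (1 + 2 * U4) * (P.a + P.M) with hD4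
  have hU40 : 0 ≤ U4 := by positivity
  have hD40 : 0 ≤ D4 := by positivity
  refine ⟨1 + (2 * P.a * C0 + 2 * D4 ^ 2), by positivity, ?_⟩
  intro ε L h u F Y hE hy
  have h1 := Y.hε
  have h11 := Y.hε1
  have h3 := Y.hε3
  have h31 := Y.ε3le
  have h2 := Y.ε2le
  have X := Y.ctx
  have hτ := P.hτ
  set q := √ε with hq
  have q0 : 0 < q := Real.sqrt_pos.2 h1
  have qq : q ^ 2 = ε := Real.sq_sqrt h1.le
  have q1 : q ≤ 1 := by
    have := Real.sqrt_le_sqrt h11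
    rwa [Real.sqrt_one] at this
  have l12 : P.s13 ε - P.s12 ε = ε := by unfold Par.s13 Par.s12; ring
  have l13 : P.s14 ε - P.s13 ε = ε ^ 3 := by unfold Par.s13 Par.s14; ring
  have ls12 : 0 ≤ P.s12 ε := by unfold Par.s12; positivity
  have ls14 : P.s14 ε ≤ P.ell ε := by unfold Par.s14 Par.ell; linarith
  have h12 : P.s12 ε ≤ P.s13 ε := by linarith
  have h13 : P.s13 ε ≤ P.s14 ε := by linarith
  have hh : ∀ r ∈ Icc (P.s12 ε) (P.s14 ε), P.a * ε ≤ h r := by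
    intro r hr
    rcases le_total r (P.s13 ε) with h6 | h6
    · exact (Y.R.hN3 r ⟨hr.1, h6⟩).ge
    · exact (Y.R.hJ7 r ⟨h6, hr.2⟩).1
  have hu : ∀ s ∈ Icc (P.s12 ε) (P.s14 ε), |u s| ≤ U4 / q := by
    intro s hs
    have o := X.osc2 (k := P.a * ε) (by positivity) hh hs (right_mem_Icc.2 (h12.trans h13))
    have hE' : En h u (P.s12 ε) (P.s14 ε) ≤ C0 / ε :=
      (X.En_mono ls12 (h12.trans h13) ls14).trans hE
    have hb : |u s - u (P.s14 ε)| ≤ (1 + 2 * C0 / P.a) * (1 / q) := by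
      refine abs_le_of_sq (by positivity) (by positivity) ?_
      calc _ ≤ (P.s14 ε - P.s12 ε) / (P.a * ε) * En h u (P.s12 ε) (P.s14 ε) := o
        _ ≤ (2 * ε) / (P.a * ε) * (C0 / ε) := by
          refine mul_le_mul ?_ hE' (X.En_nonneg (h12.trans h13)) (by positivity)
          exact div_le_div_of_nonneg_right (by linarith) (by positivity)
        _ = 2 * C0 / P.a * (1 / q) ^ 2 := by
          rw [div_pow, one_pow, qq]; field_simp
    have e : u s = (u s - u (P.s14 ε)) + u (P.s14 ε) := by ring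
    rw [e]
    have t1 := abs_add_le (u s - u (P.s14 ε)) (u (P.s14 ε))
    have t2 : K ≤ K * (1 / q) := by
      have : 1 ≤ 1 / q := by rw [le_div_iff₀ q0]; linarith
      nlinarith
    calc _ ≤ _ := t1
      _ ≤ (1 + 2 * C0 / P.a) * (1 / q) + K * (1 / q) := by linarith
      _ = U4 / q := by rw [hU4]; ring
  have hF : ∀ s ∈ Icc (P.s12 ε) (P.s13 ε), |F (P.s14 ε) - F s| ≤ D4 * q := by
    intro s hs
    have f2 := X.flux_le (hs.2.trans h13) fun r hr => (abs_gg_le P.hp0 P.hp1 (u r)).trans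
      (show 1 + 2 * |u r| ≤ (1 + 2 * U4) / q by
        have := hu r ⟨hs.1.trans hr.1, hr.2⟩
        have t : 1 ≤ 1 / q := by rw [le_div_iff₀ q0]; linarith
        calc 1 + 2 * |u r| ≤ 1 / q + 2 * (U4 / q) := by linarith
          _ = _ := by ring)
    have hm := (X.mass_mono hs.1 (hs.2.trans h13) le_rfl).trans Y.mass12
    calc _ ≤ L * ((1 + 2 * U4) / q) * ∫ r in s..(P.s14 ε), h r := f2
      _ ≤ P.L2 * ((1 + 2 * U4) / q) * ((P.a + P.M) * ε) :=
        mul_le_mul (mul_le_mul_of_nonneg_right Y.hL.2 (by positivity)) hm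
          (X.mass_nonneg (hs.2.trans h13)) (by positivity)
      _ = D4 * q := by rw [hD4, ← qq]; field_simp
  have hn := X.neck (c := P.s14 ε) (k := P.a * ε) (D := D4 * q) (E := C0 / ε)
    (by linarith : P.s12 ε < P.s13 ε) (fun r hr => (Y.R.hN3 r hr).le) hF
    ((X.En_mono ls12 h12 (h13.trans ls14)).trans hE)
  rw [l12] at hn
  have hn2 : (F (P.s14 ε) * q) ^ 2 ≤ (2 * P.a * C0 + 2 * D4 ^ 2) * 1 ^ 2 := by
    have e : 2 * (P.a * ε) * (C0 / ε) = 2 * P.a * C0 := by field_simp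
    rw [e] at hn
    have e2 : (F (P.s14 ε) * q) ^ 2 = ε * F (P.s14 ε) ^ 2 := by rw [mul_pow, qq]; ring
    rw [e2]
    have e3 : (D4 * q) ^ 2 * ε ≤ D4 ^ 2 := by
      rw [mul_pow, qq]
      have t : ε * ε ≤ 1 := by nlinarith only [h1, h11]
      calc D4 ^ 2 * ε * ε = D4 ^ 2 * (ε * ε) := by ring
        _ ≤ D4 ^ 2 * 1 := mul_le_mul_of_nonneg_left t (sq_nonneg _)
        _ = D4 ^ 2 := mul_one _
    linarith
  have := abs_le_of_sq (by positivity) zero_le_one hn2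
  rw [abs_mul, abs_of_pos q0] at this
  linarith

set_option maxHeartbeats 1000000 in
/-- the network equations -/
lemma network (P : Par) {K C0 : ℝ} (hK : 0 ≤ K) (hC0 : 0 ≤ C0) :
    ∃ C, 0 < C ∧ ∀ (ε L : ℝ) (h u F : ℝ → ℝ), RCtx P ε L h u F → En h u 0 (P.ell ε) ≤ C0 / ε →
      |P.av ε u| ≤ K → |P.bv ε u| ≤ K →
      (∀ s ∈ Icc 0 (P.s1 ε) ∪ Icc (P.s14 ε) (P.ell ε), |u s - u 0| ≤ C * ε) ∧
      |P.av ε u - u 0| ≤ C * ε ∧
      (∀ s ∈ Icc (P.s4 ε) (P.s5 ε), |u s - u (P.s4 ε)| ≤ C * ε) ∧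
      |P.bv ε u - u (P.s4 ε)| ≤ C * ε ∧
      (∀ s ∈ Icc (P.s1 ε) (P.s4 ε), min (u 0) (u (P.s4 ε)) - C * ε ≤ u s) ∧
      |u 0 - u (P.s4 ε) - L * P.M * gg P.p (u 0)| ≤ C * ε ^ (min (1 / 2) P.p) ∧
      |u (P.s4 ε) - u 0 - L * P.m * gg P.p (u (P.s4 ε))| ≤ C * ε ^ (min (1 / 2) P.p) := by
  have hL2 : 0 < P.L2 := by linarith [P.hL0, P.hL01, P.hL12]
  have ha : 0 < P.a := by linarith [P.ha]
  have hM := P.hM
  have hm := P.hm
  set CH := 1 + C0 / (2 * P.M) with hCH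
  set CL := 1 + C0 / P.m with hCL
  have CH1 : 1 ≤ CH := by
    have : 0 ≤ C0 / (2 * P.M) := by positivity
    linarith
  have CL1 : 1 ≤ CL := by
    have : 0 ≤ C0 / P.m := by positivity
    linarith
  obtain ⟨C1, C10, hC1⟩ := neckN1 P (K := K + CH + CL) (C0 := C0) (D := CH) (by positivity) hC0
    (by positivity)
  obtain ⟨C2, C20, hC2⟩ := fluxS5 P (K := K + CL + CL) (C0 := C0) (by positivity) hC0
  obtain ⟨C3, C30, hC3⟩ := fluxS14 P (K := K + CH + CH) (C0 := C0) (by positivity) hC0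
  have q1 : 0 ≤ 3 * P.L2 * CH := by positivity
  have q2 : 0 ≤ 3 * P.L2 * CL := by positivity
  refine ⟨CH + CL + 2 * C1 + C2 + C3 + 3 * P.L2 * CH + 3 * P.L2 * CL, by positivity, ?_⟩
  intro ε L h u F Y hE haK hbK
  have h1 := Y.hε
  have h11 := Y.hε1
  have h3 := Y.hε3
  have X := Y.ctx
  have hτ := P.hτ
  set CC := CH + CL + 2 * C1 + C2 + C3 + 3 * P.L2 * CH + 3 * P.L2 * CL with hCC
  have oH := Y.oscH hC0 hE
  rw [← hCH] at oH
  have oL := Y.oscL hC0 hE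
  rw [← hCL] at oL
  have aH := Y.avH oH
  have aL := Y.avL oL
  have CHε : CH * ε ≤ CH := by nlinarith
  have CLε : CL * ε ≤ CL := by nlinarith
  have x0 : |u 0| ≤ K + CH := by
    have e : u 0 = P.av ε u + - (P.av ε u - u 0) := by ring
    rw [e]
    have := abs_add_le (P.av ε u) (- (P.av ε u - u 0))
    rw [abs_neg] at this
    linarith
  have y0 : |u (P.s4 ε)| ≤ K + CL := by
    have e : u (P.s4 ε) = P.bv ε u + - (P.bv ε u - u (P.s4 ε)) := by ring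
    rw [e]
    have := abs_add_le (P.bv ε u) (- (P.bv ε u - u (P.s4 ε)))
    rw [abs_neg] at this
    linarith
  have m1 : P.s1 ε ∈ Icc 0 (P.s1 ε) ∪ Icc (P.s14 ε) (P.ell ε) :=
    Or.inl (right_mem_Icc.2 (by unfold Par.s1; positivity))
  have m14 : P.s14 ε ∈ Icc 0 (P.s1 ε) ∪ Icc (P.s14 ε) (P.ell ε) :=
    Or.inr (left_mem_Icc.2 (by unfold Par.s14 Par.ell; linarith))
  have m5 : P.s5 ε ∈ Icc (P.s4 ε) (P.s5 ε) :=
    right_mem_Icc.2 (by unfold Par.s4 Par.s5; linarith)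
  have u14 : |u (P.s14 ε)| ≤ K + CH + CH := by
    have e : u (P.s14 ε) = (u (P.s14 ε) - u 0) + u 0 := by ring
    rw [e]
    have := abs_add_le (u (P.s14 ε) - u 0) (u 0)
    have := oH _ m14
    linarith
  have u5 : |u (P.s5 ε)| ≤ K + CL + CL := by
    have e : u (P.s5 ε) = (u (P.s5 ε) - u (P.s4 ε)) + u (P.s4 ε) := by ring
    rw [e]
    have := abs_add_le (u (P.s5 ε) - u (P.s4 ε)) (u (P.s4 ε))
    have := oL _ m5
    linarith
  obtain ⟨n1, n2, n3⟩ := hC1 ε L h u F Y hE (by linarith) (by linarith) (oH _ m1)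
  have f5 := hC2 ε L h u F Y hE u5
  have f14 := hC3 ε L h u F Y hE u14
  -- powers of ε
  set e0 := min (1 / 2 : ℝ) P.p with he0
  have pw : ∀ t : ℝ, e0 ≤ t → ε ^ t ≤ ε ^ e0 := fun t ht =>
    Real.rpow_le_rpow_of_exponent_ge h1 h11 ht
  have pw1 : ε ≤ ε ^ e0 := by
    have := pw 1 ((min_le_left _ _).trans (by norm_num))
    rwa [Real.rpow_one] at this
  have pw2 : √ε ≤ ε ^ e0 := by
    have := pw (1 / 2) (min_le_left _ _)
    rwa [← Real.sqrt_eq_rpow] at this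
  have pw3 : ε ^ P.p ≤ ε ^ e0 := pw _ (min_le_right _ _)
  have pe : 0 < ε ^ e0 := Real.rpow_pos_of_pos h1 _
  have pp : 0 < ε ^ P.p := Real.rpow_pos_of_pos h1 _
  have L0 := Y.hL.1
  have LL := Y.hL.2
  -- lumps
  have lH1 := X.lump (a := 0) (b := P.s1 ε) (k := P.M / ε ^ 2) (x := u 0)
    (D := 3 * CH * ε ^ P.p) (by unfold Par.s1; positivity) Y.R.hH
    fun r hr => gg_close P.hp0 P.hp1 CH1 h1 h11 (oH r (Or.inl hr))
  have lH2 := X.lump (a := P.s14 ε) (b := P.ell ε) (k := P.M / ε ^ 2) (x := u 0)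
    (D := 3 * CH * ε ^ P.p) (by unfold Par.s14 Par.ell; linarith) Y.R.hH'
    fun r hr => gg_close P.hp0 P.hp1 CH1 h1 h11 (oH r (Or.inr hr))
  have lL := X.lump (a := P.s4 ε) (b := P.s5 ε) (k := P.m / ε ^ 2) (x := u (P.s4 ε))
    (D := 3 * CL * ε ^ P.p) (by unfold Par.s4 Par.s5; linarith) Y.R.hL
    fun r hr => gg_close P.hp0 P.hp1 CL1 h1 h11 (oL r hr)
  have l1 : P.M / ε ^ 2 * (P.s1 ε - 0) = P.M / (2 * ε) := by unfold Par.s1; field_simp; ring
  have l2 : P.M / ε ^ 2 * (P.ell ε - P.s14 ε) = P.M / (2 * ε) := by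
    unfold Par.ell Par.s14; field_simp; ring
  have l3 : P.m / ε ^ 2 * (P.s5 ε - P.s4 ε) = P.m / ε := by
    unfold Par.s5 Par.s4; field_simp; ring
  rw [l1] at lH1
  rw [l2, Y.Fℓ] at lH2
  rw [l3] at lL
  -- multiply by ε
  have LM : L * P.M ≤ P.L2 := by
    have : P.M ≤ 1 := by linarith [P.hMm]
    nlinarith
  have Lm : L * P.m ≤ P.L2 := by
    have : P.m ≤ 1 := by linarith [P.hMm]
    nlinarith
  have kH : |ε * F (P.s1 ε) - ε * F (P.s14 ε) + L * P.M * gg P.p (u 0)|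
      ≤ 3 * P.L2 * CH * ε ^ P.p := by
    have e : ε * F (P.s1 ε) - ε * F (P.s14 ε) + L * P.M * gg P.p (u 0)
        = ε * ((F (P.s1 ε) - F 0 + L * (P.M / (2 * ε)) * gg P.p (u 0))
          + (F 0 - F (P.s14 ε) + L * (P.M / (2 * ε)) * gg P.p (u 0))) := by
      field_simp; ring
    rw [e, abs_mul, abs_of_pos h1]
    calc _ ≤ ε * (L * (P.M / (2 * ε)) * (3 * CH * ε ^ P.p)
          + L * (P.M / (2 * ε)) * (3 * CH * ε ^ P.p)) :=
          mul_le_mul_of_nonneg_left ((abs_add_le _ _).trans (add_le_add lH1 lH2)) h1.le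
      _ = L * P.M * (3 * CH * ε ^ P.p) := by field_simp; ring
      _ ≤ P.L2 * (3 * CH * ε ^ P.p) := mul_le_mul_of_nonneg_right LM (by positivity)
      _ = _ := by ring
  have kL : |ε * F (P.s5 ε) - ε * F (P.s4 ε) + L * P.m * gg P.p (u (P.s4 ε))|
      ≤ 3 * P.L2 * CL * ε ^ P.p := by
    have e : ε * F (P.s5 ε) - ε * F (P.s4 ε) + L * P.m * gg P.p (u (P.s4 ε))
        = ε * (F (P.s5 ε) - F (P.s4 ε) + L * (P.m / ε) * gg P.p (u (P.s4 ε))) := by
      field_simp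
    rw [e, abs_mul, abs_of_pos h1]
    calc _ ≤ ε * (L * (P.m / ε) * (3 * CL * ε ^ P.p)) :=
          mul_le_mul_of_nonneg_left lL h1.le
      _ = L * P.m * (3 * CL * ε ^ P.p) := by field_simp
      _ ≤ P.L2 * (3 * CL * ε ^ P.p) := mul_le_mul_of_nonneg_right Lm (by positivity)
      _ = _ := by ring
  have ef14 : |ε * F (P.s14 ε)| ≤ C3 * ε ^ e0 := by
    have e : |ε * F (P.s14 ε)| = |F (P.s14 ε)| * √ε * √ε := by
      rw [abs_mul, abs_of_pos h1, mul_assoc, Real.mul_self_sqrt h1.le, mul_comm]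
    rw [e]
    exact mul_le_mul f14 pw2 (Real.sqrt_nonneg _) C30
  have ef5 : |ε * F (P.s5 ε)| ≤ C2 * ε ^ e0 := by
    rw [abs_mul, abs_of_pos h1, mul_comm]
    exact mul_le_mul f5 pw1 h1.le C20
  have ef4 : |ε * (F (P.s4 ε) - F (P.s1 ε))| ≤ C1 * ε ^ e0 := by
    rw [abs_mul, abs_of_pos h1]
    calc ε * |F (P.s4 ε) - F (P.s1 ε)| ≤ 1 * (C1 * ε) :=
          mul_le_mul h11 n2 (abs_nonneg _) zero_le_one
      _ ≤ C1 * ε ^ e0 := by rw [one_mul]; exact mul_le_mul_of_nonneg_left pw1 C10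
  have n1' : |ε * F (P.s1 ε) - (u (P.s4 ε) - u 0)| ≤ C1 * ε ^ e0 :=
    n1.trans (mul_le_mul_of_nonneg_left pw1 C10)
  have kH' : |ε * F (P.s1 ε) - ε * F (P.s14 ε) + L * P.M * gg P.p (u 0)|
      ≤ 3 * P.L2 * CH * ε ^ e0 := kH.trans (mul_le_mul_of_nonneg_left pw3 q1)
  have kL' : |ε * F (P.s5 ε) - ε * F (P.s4 ε) + L * P.m * gg P.p (u (P.s4 ε))|
      ≤ 3 * P.L2 * CL * ε ^ e0 := kL.trans (mul_le_mul_of_nonneg_left pw3 q2)
  have CHC : CH * ε ≤ CC * ε := mul_le_mul_of_nonneg_right (by rw [hCC]; linarith) h1.le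
  have CLC : CL * ε ≤ CC * ε := mul_le_mul_of_nonneg_right (by rw [hCC]; linarith) h1.le
  have C1C : C1 * ε ≤ CC * ε := mul_le_mul_of_nonneg_right (by rw [hCC]; linarith) h1.le
  refine ⟨fun s hs => (oH s hs).trans CHC, aH.trans CHC, fun s hs => (oL s hs).trans CLC,
    aL.trans CLC, fun s hs => ?_, ?_, ?_⟩
  · have := n3 s hs
    linarith
  · have e : u 0 - u (P.s4 ε) - L * P.M * gg P.p (u 0)
        = (ε * F (P.s1 ε) - (u (P.s4 ε) - u 0)) + (- (ε * F (P.s14 ε)))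
          + - (ε * F (P.s1 ε) - ε * F (P.s14 ε) + L * P.M * gg P.p (u 0)) := by ring
    rw [e]
    have a1 := abs_add_le ((ε * F (P.s1 ε) - (u (P.s4 ε) - u 0)) + (- (ε * F (P.s14 ε))))
      (- (ε * F (P.s1 ε) - ε * F (P.s14 ε) + L * P.M * gg P.p (u 0)))
    have a2 := abs_add_le (ε * F (P.s1 ε) - (u (P.s4 ε) - u 0)) (- (ε * F (P.s14 ε)))
    rw [abs_neg] at a1 a2
    have : (C1 + C3 + 3 * P.L2 * CH) * ε ^ e0 ≤ CC * ε ^ e0 :=
      mul_le_mul_of_nonneg_right (by rw [hCC]; linarith) pe.le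
    linarith
  · have e : u (P.s4 ε) - u 0 - L * P.m * gg P.p (u (P.s4 ε))
        = - (ε * F (P.s1 ε) - (u (P.s4 ε) - u 0)) + (- (ε * (F (P.s4 ε) - F (P.s1 ε))))
          + ε * F (P.s5 ε)
          + - (ε * F (P.s5 ε) - ε * F (P.s4 ε) + L * P.m * gg P.p (u (P.s4 ε))) := by ring
    rw [e]
    have a1 := abs_add_le (- (ε * F (P.s1 ε) - (u (P.s4 ε) - u 0))
      + (- (ε * (F (P.s4 ε) - F (P.s1 ε)))) + ε * F (P.s5 ε))
      (- (ε * F (P.s5 ε) - ε * F (P.s4 ε) + L * P.m * gg P.p (u (P.s4 ε))))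
    have a2 := abs_add_le (- (ε * F (P.s1 ε) - (u (P.s4 ε) - u 0))
      + (- (ε * (F (P.s4 ε) - F (P.s1 ε))))) (ε * F (P.s5 ε))
    have a3 := abs_add_le (- (ε * F (P.s1 ε) - (u (P.s4 ε) - u 0)))
      (- (ε * (F (P.s4 ε) - F (P.s1 ε))))
    rw [abs_neg] at a1
    rw [abs_neg, abs_neg] at a3
    have : (2 * C1 + C2 + 3 * P.L2 * CL) * ε ^ e0 ≤ CC * ε ^ e0 :=
      mul_le_mul_of_nonneg_right (by rw [hCC]; linarith) pe.le
    linarith

/-- Module C4. -/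
theorem approx_holds (hQ : QFavStatement) : ApproxStatement := by
  intro P K hK
  obtain ⟨δ, hδ, hQ⟩ := hQ P (1 / 2) ⟨by norm_num, by norm_num⟩
  have hL2 : 0 < P.L2 := by linarith [P.hL0, P.hL01, P.hL12]
  set C0 := (P.L2 + 1) * K ^ 2 / δ with hC0
  have hC00 : 0 ≤ C0 := by positivity
  obtain ⟨C, hC, hN⟩ := network P hK.le hC00
  refine ⟨C + C0, by positivity, ?_⟩
  filter_upwards [hQ, self_mem_nhdsWithin, Ioc_mem_nhdsGT (zero_lt_one' ℝ)] with ε hQε hε hε1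
  intro h R L hL u F S ha hb
  have h1 : 0 < ε := hε
  have Y : RCtx P ε L h u F := ⟨h1, hε1.2, R, hL, S⟩
  have X := Y.ctx
  -- `u` is Lipschitz on `[0, ell]`
  have hLip : Lip u 0 (P.ell ε) := by
    have hcd : ContDiff ℝ 1 u := by
      rw [contDiff_one_iff_deriv]
      refine ⟨fun s => (S.du s).differentiableAt, ?_⟩
      have : deriv u = fun s => F s / h s := funext fun s => X.deriv_u s
      rw [this]
      exact X.cFh
    obtain ⟨K', hK'⟩ := (hcd.contDiffOn (s := Icc 0 (P.ell ε))).exists_lipschitzOnWith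
      one_ne_zero (convex_Icc _ _) isCompact_Icc
    exact ⟨K', hK'⟩
  have q := hQε h R u hLip Y.uℓ.symm L hL
  have en := X.energy_le
  have hE : En h u 0 (P.ell ε) ≤ C0 / ε := by
    have e1 : δ * En h u 0 (P.ell ε) ≤ (P.L2 + 1) * K ^ 2 / ε := by
      have t : - ((P.L2 + 1) * K ^ 2) ≤ (1 - 1 / 2) * (P.av ε u - P.bv ε u) ^ 2
          - (L + 1 / 2) * (P.M * P.av ε u ^ 2 + P.m * P.bv ε u ^ 2) := by
        have a1 : P.av ε u ^ 2 ≤ K ^ 2 := sq_le_sq' (by linarith [(abs_le.1 ha).1])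
          (abs_le.1 ha).2
        have a2 : P.bv ε u ^ 2 ≤ K ^ 2 := sq_le_sq' (by linarith [(abs_le.1 hb).1])
          (abs_le.1 hb).2
        have a3 : P.M * P.av ε u ^ 2 + P.m * P.bv ε u ^ 2 ≤ K ^ 2 := by
          have b1 := mul_le_mul_of_nonneg_left a1 P.hM.le
          have b2 := mul_le_mul_of_nonneg_left a2 P.hm.le
          have b3 : P.M * K ^ 2 + P.m * K ^ 2 = K ^ 2 := by rw [← add_mul, P.hMm, one_mul]
          linarith
        have a4 : (L + 1 / 2) * (P.M * P.av ε u ^ 2 + P.m * P.bv ε u ^ 2)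
            ≤ (P.L2 + 1) * K ^ 2 := by
          refine mul_le_mul (by linarith [hL.2]) a3 ?_ (by linarith)
          have := P.hM
          have := P.hm
          positivity
        have a5 := sq_nonneg (P.av ε u - P.bv ε u)
        linarith
      have t2 := div_le_div_of_nonneg_right t h1.le
      rw [neg_div] at t2
      linarith
    rw [hC0, div_div, le_div_iff₀ (by positivity)]
    rw [le_div_iff₀ h1] at e1
    linarith
  obtain ⟨c1, c2, c3, c4, c5, c6, c7⟩ := hN ε L h u F Y hE ha hb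
  have pe : 0 < ε ^ (min (1 / 2) P.p) := Real.rpow_pos_of_pos h1 _
  have w1 : C * ε ≤ (C + C0) * ε := by nlinarith
  have w2 : C * ε ^ (min (1 / 2) P.p) ≤ (C + C0) * ε ^ (min (1 / 2) P.p) := by nlinarith
  refine ⟨hE.trans (div_le_div_of_nonneg_right (by linarith) h1.le),
    fun s hs => (c1 s hs).trans w1, c2.trans w1, fun s hs => (c3 s hs).trans w1, c4.trans w1,
    fun s hs => ?_, c6.trans w2, c7.trans w2⟩
  have := c5 s hs
  linarith

end Pool.Agent.Lib.MP_e46711_an.H55
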