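import Pool.Agent.Lib.MP_e46711_an.H55.Approx

/-!
# MP_e46711_an: Jensen's inequality on the two lumps
-/

open Set Filter Topology MeasureTheory
open scoped ContDiff

namespace Pool.Agent.Lib.MP_e46711_an.H55

open Pool.Agent.Lib.MP_e46711_an

/-- tangent line inequality integrated over an interval -/
lemma tangent_int {p : ℝ} (hp : 0 < p) {u : ℝ → ℝ} (hu : Continuous u) (c : ℝ) {s t : ℝ}
    (hst : s ≤ t) :
    (t - s) * |c| ^ (p + 1) + (p + 1) * sp p c * ((∫ r in s..t, u r) - (t - s) * c)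
      ≤ ∫ r in s..t, |u r| ^ (p + 1) := by
  have hq : (1:ℝ) < p + 1 := by linarith
  have c1 : Continuous fun r => |u r| ^ (p + 1) :=
    hu.abs.rpow_const fun _ => Or.inr (by linarith)
  have c2 : Continuous fun r => |c| ^ (p + 1) + (p + 1) * sp p c * (u r - c) :=
    continuous_const.add (continuous_const.mul (hu.sub continuous_const))
  have h1 : (∫ r in s..t, (|c| ^ (p + 1) + (p + 1) * sp p c * (u r - c)))
      ≤ ∫ r in s..t, |u r| ^ (p + 1) := by
    refine intervalIntegral.integral_mono_on hst (c2.intervalIntegrable _ _)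
      (c1.intervalIntegrable _ _) fun r _ => ?_
    have := tangent hq (u r) c
    rwa [show p + 1 - 1 = p by ring] at this
  have c3 : Continuous fun r => (p + 1) * sp p c * (u r - c) :=
    continuous_const.mul (hu.sub continuous_const)
  have h2 : (∫ r in s..t, (|c| ^ (p + 1) + (p + 1) * sp p c * (u r - c)))
      = (t - s) * |c| ^ (p + 1) + (p + 1) * sp p c * ((∫ r in s..t, u r) - (t - s) * c) := by
    rw [intervalIntegral.integral_add (continuous_const.intervalIntegrable _ _)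
      (c3.intervalIntegrable _ _), intervalIntegral.integral_const_mul,
      intervalIntegral.integral_sub (hu.intervalIntegrable _ _)
      (continuous_const.intervalIntegrable _ _), intervalIntegral.integral_const,
      intervalIntegral.integral_const, smul_eq_mul, smul_eq_mul]
  rw [← h2]
  exact h1

/-- Jensen on the two lumps of the ring -/
theorem jensen_ring (P : Par) {ε : ℝ} (hε : 0 < ε) {h : ℝ → ℝ} (R : P.IsRing ε h) {u : ℝ → ℝ}
    (hu : Continuous u) :
    P.M / ε * |P.av ε u| ^ (P.p + 1) + P.m / ε * |P.bv ε u| ^ (P.p + 1)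
      ≤ Zm P.p h u 0 (P.ell ε) := by
  have hp := P.hp0
  have hM := P.hM
  have hm := P.hm
  have hτ := P.hτ
  have hε3 : 0 < ε ^ 3 := pow_pos hε 3
  have hh := R.smooth.continuous
  have cz : Continuous fun r => h r * |u r| ^ (P.p + 1) :=
    hh.mul (hu.abs.rpow_const fun _ => Or.inr (by linarith))
  have i : ∀ x y : ℝ, IntervalIntegrable (fun r => h r * |u r| ^ (P.p + 1)) volume x y :=
    fun x y => cz.intervalIntegrable _ _
  have n : ∀ x y : ℝ, x ≤ y → 0 ≤ ∫ r in x..y, h r * |u r| ^ (P.p + 1) := fun x y hxy =>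
    intervalIntegral.integral_nonneg hxy fun r _ =>
      mul_nonneg (R.pos r).le (Real.rpow_nonneg (abs_nonneg _) _)
  have l1 : P.s1 ε - 0 = ε / 2 := by unfold Par.s1; ring
  have l14 : P.s4 ε - P.s1 ε = ε + 2 * ε ^ 3 := by unfold Par.s4 Par.s1; ring
  have l45 : P.s5 ε - P.s4 ε = ε := by unfold Par.s5 Par.s4; ring
  have l5 : P.s5 ε ≤ P.s14 ε := by unfold Par.s5 Par.s14; linarith
  have l2 : P.ell ε - P.s14 ε = ε / 2 := by unfold Par.s14 Par.ell; ring
  have e : Zm P.p h u 0 (P.ell ε) = (∫ r in (0:ℝ)..(P.s1 ε), h r * |u r| ^ (P.p + 1))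
      + (∫ r in (P.s1 ε)..(P.s4 ε), h r * |u r| ^ (P.p + 1))
      + (∫ r in (P.s4 ε)..(P.s5 ε), h r * |u r| ^ (P.p + 1))
      + (∫ r in (P.s5 ε)..(P.s14 ε), h r * |u r| ^ (P.p + 1))
      + ∫ r in (P.s14 ε)..(P.ell ε), h r * |u r| ^ (P.p + 1) := by
    rw [intervalIntegral.integral_add_adjacent_intervals (i _ _) (i _ _),
      intervalIntegral.integral_add_adjacent_intervals (i _ _) (i _ _),
      intervalIntegral.integral_add_adjacent_intervals (i _ _) (i _ _),
      intervalIntegral.integral_add_adjacent_intervals (i _ _) (i _ _)]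
    rfl
  have cst : ∀ (k a b : ℝ), a ≤ b → (∀ r ∈ Icc a b, h r = k) →
      (∫ r in a..b, h r * |u r| ^ (P.p + 1)) = k * ∫ r in a..b, |u r| ^ (P.p + 1) := by
    intro k a b hab hk
    rw [← intervalIntegral.integral_const_mul]
    refine intervalIntegral.integral_congr fun r hr => ?_
    rw [uIcc_of_le hab] at hr
    show h r * |u r| ^ (P.p + 1) = k * |u r| ^ (P.p + 1)
    rw [hk r hr]
  have j1 := tangent_int hp hu (P.av ε u) (by linarith : (0:ℝ) ≤ P.s1 ε)
  have j2 := tangent_int hp hu (P.av ε u) (by linarith : P.s14 ε ≤ P.ell ε)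
  have j3 := tangent_int hp hu (P.bv ε u) (by linarith : P.s4 ε ≤ P.s5 ε)
  rw [l1] at j1
  rw [l2] at j2
  rw [l45] at j3
  have ha : (∫ s in (0:ℝ)..(P.s1 ε), u s) + (∫ s in (P.s14 ε)..(P.ell ε), u s)
      = ε * P.av ε u := by unfold Par.av; field_simp
  have hb : (∫ s in (P.s4 ε)..(P.s5 ε), u s) = ε * P.bv ε u := by unfold Par.bv; field_simp
  have jH : ε * |P.av ε u| ^ (P.p + 1) ≤ (∫ r in (0:ℝ)..(P.s1 ε), |u r| ^ (P.p + 1))
      + ∫ r in (P.s14 ε)..(P.ell ε), |u r| ^ (P.p + 1) := by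
    have : (P.p + 1) * sp P.p (P.av ε u) * ((∫ s in (0:ℝ)..(P.s1 ε), u s) - ε / 2 * P.av ε u)
        + (P.p + 1) * sp P.p (P.av ε u) * ((∫ s in (P.s14 ε)..(P.ell ε), u s)
          - ε / 2 * P.av ε u) = 0 := by
      rw [← mul_add]
      have : (∫ s in (0:ℝ)..(P.s1 ε), u s) - ε / 2 * P.av ε u
          + ((∫ s in (P.s14 ε)..(P.ell ε), u s) - ε / 2 * P.av ε u) = 0 := by linarith
      rw [this, mul_zero]
    linarith
  have jL : ε * |P.bv ε u| ^ (P.p + 1) ≤ ∫ r in (P.s4 ε)..(P.s5 ε), |u r| ^ (P.p + 1) := by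
    rw [hb, sub_self, mul_zero, add_zero] at j3
    exact j3
  rw [e, cst (P.M / ε ^ 2) 0 (P.s1 ε) (by linarith) R.hH,
    cst (P.m / ε ^ 2) (P.s4 ε) (P.s5 ε) (by linarith) R.hL,
    cst (P.M / ε ^ 2) (P.s14 ε) (P.ell ε) (by linarith) R.hH']
  have k1 : P.M / ε * |P.av ε u| ^ (P.p + 1) ≤ P.M / ε ^ 2 *
      ((∫ r in (0:ℝ)..(P.s1 ε), |u r| ^ (P.p + 1))
      + ∫ r in (P.s14 ε)..(P.ell ε), |u r| ^ (P.p + 1)) := by
    have := mul_le_mul_of_nonneg_left jH (by positivity : 0 ≤ P.M / ε ^ 2)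
    calc _ = P.M / ε ^ 2 * (ε * |P.av ε u| ^ (P.p + 1)) := by field_simp
      _ ≤ _ := this
  have k2 : P.m / ε * |P.bv ε u| ^ (P.p + 1) ≤ P.m / ε ^ 2 *
      (∫ r in (P.s4 ε)..(P.s5 ε), |u r| ^ (P.p + 1)) := by
    have := mul_le_mul_of_nonneg_left jL (by positivity : 0 ≤ P.m / ε ^ 2)
    calc _ = P.m / ε ^ 2 * (ε * |P.bv ε u| ^ (P.p + 1)) := by field_simp
      _ ≤ _ := this
  have n1 := n (P.s1 ε) (P.s4 ε) (by linarith)
  have n2 := n (P.s5 ε) (P.s14 ε) l5
  rw [mul_add] at k1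
  linarith

end Pool.Agent.Lib.MP_e46711_an.H55
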