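import Pool.Agent.Lib.MP_e46711_an.H82.Basic

/-!
# MP_e46711_an, part C: tools for classical solutions (module C4)
-/

open Set Filter Topology MeasureTheory
open scoped ContDiff

namespace Pool.Agent.Lib.MP_e46711_an.H55

open Pool.Agent.Lib.MP_e46711_an

/-- the standing assumptions on a classical solution -/
structure Ctx (p L ℓ : ℝ) (h u F : ℝ → ℝ) : Prop where
  hp : 0 < p
  hp1 : p < 1
  hL : 0 ≤ L
  hℓ : 0 < ℓ
  hc : Continuous h
  hpos : ∀ s, 0 < h s
  S : Sol p L ℓ h u F

namespace Ctx
variable {p L ℓ : ℝ} {h u F : ℝ → ℝ} (X : Ctx p L ℓ h u F)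
include X

lemma cu : Continuous u := continuous_iff_continuousAt.2 fun s => (X.S.du s).continuousAt
lemma cF : Continuous F := continuous_iff_continuousAt.2 fun s => (X.S.dF s).continuousAt
lemma cg : Continuous fun s => gg p (u s) := (continuous_gg X.hp X.hp1).comp X.cu
lemma cFh : Continuous fun s => F s / h s := X.cF.div X.hc fun s => (X.hpos s).ne'
lemma cF2h : Continuous fun s => F s ^ 2 / h s := (X.cF.pow 2).div X.hc fun s => (X.hpos s).ne'
lemma c1h : Continuous fun s => 1 / h s := continuous_const.div X.hc fun s => (X.hpos s).ne'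
lemma deriv_u (s : ℝ) : deriv u s = F s / h s := (X.S.du s).deriv

lemma En_eq (s t : ℝ) : En h u s t = ∫ r in s..t, F r ^ 2 / h r := by
  unfold En
  refine intervalIntegral.integral_congr fun r _ => ?_
  show h r * deriv u r ^ 2 = F r ^ 2 / h r
  rw [X.deriv_u]
  have := (X.hpos r).ne'
  field_simp

lemma diff_u (s t : ℝ) : u t - u s = ∫ r in s..t, F r / h r :=
  (intervalIntegral.integral_eq_sub_of_hasDerivAt (fun r _ => X.S.du r)
    (X.cFh.intervalIntegrable _ _)).symm

lemma cfl : Continuous fun s => -(L * (h s * gg p (u s))) :=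
  (continuous_const.mul (X.hc.mul X.cg)).neg

lemma diff_F (s t : ℝ) : F t - F s = ∫ r in s..t, -(L * (h r * gg p (u r))) :=
  (intervalIntegral.integral_eq_sub_of_hasDerivAt (fun r _ => X.S.dF r)
    (X.cfl.intervalIntegrable _ _)).symm

lemma En_nonneg {s t : ℝ} (hst : s ≤ t) : 0 ≤ En h u s t := by
  rw [X.En_eq]
  exact intervalIntegral.integral_nonneg hst fun r _ => div_nonneg (sq_nonneg _) (X.hpos r).le

lemma En_mono {a s t b : ℝ} (has : a ≤ s) (_hst : s ≤ t) (htb : t ≤ b) :
    En h u s t ≤ En h u a b := by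
  rw [X.En_eq, X.En_eq]
  have i : ∀ x y : ℝ, IntervalIntegrable (fun r => F r ^ 2 / h r) volume x y := fun x y =>
    X.cF2h.intervalIntegrable _ _
  have e : (∫ r in a..b, F r ^ 2 / h r) = (∫ r in a..s, F r ^ 2 / h r)
      + (∫ r in s..t, F r ^ 2 / h r) + ∫ r in t..b, F r ^ 2 / h r := by
    rw [intervalIntegral.integral_add_adjacent_intervals (i _ _) (i _ _),
      intervalIntegral.integral_add_adjacent_intervals (i _ _) (i _ _)]
  have n : ∀ x y : ℝ, x ≤ y → 0 ≤ ∫ r in x..y, F r ^ 2 / h r := fun x y hxy =>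
    intervalIntegral.integral_nonneg hxy fun r _ => div_nonneg (sq_nonneg _) (X.hpos r).le
  rw [e]
  linarith [n _ _ has, n _ _ htb]

/-- Cauchy-Schwarz -/
lemma CS {s t : ℝ} (hst : s ≤ t) :
    (u t - u s) ^ 2 ≤ (∫ r in s..t, 1 / h r) * En h u s t := by
  rw [X.diff_u, X.En_eq]
  set A := ∫ r in s..t, 1 / h r
  set B := ∫ r in s..t, F r / h r
  set D := ∫ r in s..t, F r ^ 2 / h r
  have key : ∀ l : ℝ, 0 ≤ D * (l * l) + (2 * B) * l + A := by
    intro l
    have e : D * (l * l) + (2 * B) * l + A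
        = ∫ r in s..t, (l * l * (F r ^ 2 / h r) + 2 * l * (F r / h r) + 1 / h r) := by
      rw [intervalIntegral.integral_add, intervalIntegral.integral_add,
        intervalIntegral.integral_const_mul, intervalIntegral.integral_const_mul]
      · ring
      · exact (continuous_const.mul X.cF2h).intervalIntegrable _ _
      · exact (continuous_const.mul X.cFh).intervalIntegrable _ _
      · exact ((continuous_const.mul X.cF2h).add
          (continuous_const.mul X.cFh)).intervalIntegrable _ _
      · exact X.c1h.intervalIntegrable _ _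
    rw [e]
    refine intervalIntegral.integral_nonneg hst fun r _ => ?_
    have h0 := X.hpos r
    have : l * l * (F r ^ 2 / h r) + 2 * l * (F r / h r) + 1 / h r = (l * F r + 1) ^ 2 / h r := by
      field_simp
      ring
    rw [this]
    exact div_nonneg (sq_nonneg _) h0.le
  have := discrim_le_zero key
  unfold discrim at this
  nlinarith

/-- oscillation on an interval where `k ≤ h` -/
lemma osc {s t k : ℝ} (hst : s ≤ t) (hk0 : 0 < k) (hk : ∀ r ∈ Icc s t, k ≤ h r) :
    (u t - u s) ^ 2 ≤ (t - s) / k * En h u s t := by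
  have h1 : (∫ r in s..t, 1 / h r) ≤ (t - s) / k := by
    have : (∫ r in s..t, 1 / h r) ≤ ∫ r in s..t, 1 / k := by
      refine intervalIntegral.integral_mono_on hst (X.c1h.intervalIntegrable _ _)
        (continuous_const.intervalIntegrable _ _) fun r hr => ?_
      exact one_div_le_one_div_of_le hk0 (hk r hr)
    rw [intervalIntegral.integral_const, smul_eq_mul] at this
    calc _ ≤ _ := this
      _ = _ := by ring
  exact (X.CS hst).trans (mul_le_mul_of_nonneg_right h1 (X.En_nonneg hst))

/-- oscillation between two points of an interval `[a,b]` where `k ≤ h` -/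
lemma osc2 {a b k s t : ℝ} (hk0 : 0 < k) (hk : ∀ r ∈ Icc a b, k ≤ h r)
    (hs : s ∈ Icc a b) (ht : t ∈ Icc a b) :
    (u s - u t) ^ 2 ≤ (b - a) / k * En h u a b := by
  rcases le_total s t with hst | hst
  · have h1 := X.osc hst hk0 fun r hr => hk r ⟨hs.1.trans hr.1, hr.2.trans ht.2⟩
    have h2 : (t - s) / k ≤ (b - a) / k :=
      div_le_div_of_nonneg_right (by linarith [hs.1, ht.2]) hk0.le
    have h3 : 0 ≤ (t - s) / k := div_nonneg (by linarith) hk0.le
    calc (u s - u t) ^ 2 = (u t - u s) ^ 2 := by ring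
      _ ≤ (t - s) / k * En h u s t := h1
      _ ≤ (b - a) / k * En h u a b :=
        mul_le_mul h2 (X.En_mono hs.1 hst ht.2) (X.En_nonneg hst) (h3.trans h2)
  · have h1 := X.osc hst hk0 fun r hr => hk r ⟨ht.1.trans hr.1, hr.2.trans hs.2⟩
    have h2 : (s - t) / k ≤ (b - a) / k :=
      div_le_div_of_nonneg_right (by linarith [ht.1, hs.2]) hk0.le
    have h3 : 0 ≤ (s - t) / k := div_nonneg (by linarith) hk0.le
    calc (u s - u t) ^ 2 ≤ (s - t) / k * En h u t s := h1
      _ ≤ (b - a) / k * En h u a b :=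
        mul_le_mul h2 (X.En_mono ht.1 hst hs.2) (X.En_nonneg hst) (h3.trans h2)

lemma mass_nonneg {s t : ℝ} (hst : s ≤ t) : 0 ≤ ∫ r in s..t, h r :=
  intervalIntegral.integral_nonneg hst fun r _ => (X.hpos r).le

lemma mass_mono {a s t b : ℝ} (has : a ≤ s) (_hst : s ≤ t) (htb : t ≤ b) :
    (∫ r in s..t, h r) ≤ ∫ r in a..b, h r := by
  have i : ∀ x y : ℝ, IntervalIntegrable h volume x y := fun x y => X.hc.intervalIntegrable _ _
  have e : (∫ r in a..b, h r) = (∫ r in a..s, h r) + (∫ r in s..t, h r) + ∫ r in t..b, h r := by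
    rw [intervalIntegral.integral_add_adjacent_intervals (i _ _) (i _ _),
      intervalIntegral.integral_add_adjacent_intervals (i _ _) (i _ _)]
  rw [e]
  linarith [X.mass_nonneg has, X.mass_nonneg htb]

lemma mass_le {s t k : ℝ} (hst : s ≤ t) (hk : ∀ r ∈ Icc s t, h r ≤ k) :
    (∫ r in s..t, h r) ≤ k * (t - s) := by
  have : (∫ r in s..t, h r) ≤ ∫ r in s..t, k :=
    intervalIntegral.integral_mono_on hst (X.hc.intervalIntegrable _ _)
        (continuous_const.intervalIntegrable _ _) hk
  rw [intervalIntegral.integral_const, smul_eq_mul] at this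
  linarith

/-- change of the flux -/
lemma flux_le {s t G : ℝ} (hst : s ≤ t) (hG : ∀ r ∈ Icc s t, |gg p (u r)| ≤ G) :
    |F t - F s| ≤ L * G * ∫ r in s..t, h r := by
  rw [X.diff_F]
  calc |∫ r in s..t, -(L * (h r * gg p (u r)))|
      ≤ ∫ r in s..t, |-(L * (h r * gg p (u r)))| :=
        intervalIntegral.abs_integral_le_integral_abs hst
    _ ≤ ∫ r in s..t, L * G * h r := by
        refine intervalIntegral.integral_mono_on hst (X.cfl.abs.intervalIntegrable _ _)
          ((continuous_const.mul X.hc).intervalIntegrable _ _) fun r hr => ?_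
        rw [abs_neg, abs_mul, abs_mul, abs_of_nonneg X.hL, abs_of_pos (X.hpos r)]
        have := mul_le_mul_of_nonneg_left (hG r hr) (mul_nonneg X.hL (X.hpos r).le)
        calc L * (h r * |gg p (u r)|) = L * h r * |gg p (u r)| := by ring
          _ ≤ L * h r * G := this
          _ = L * G * h r := by ring
    _ = L * G * ∫ r in s..t, h r := by rw [intervalIntegral.integral_const_mul]

/-- energy identity -/
lemma energy : En h u 0 ℓ = L * ∫ r in (0:ℝ)..ℓ, h r * (gg p (u r) * u r) := by
  have hd : ∀ s, HasDerivAt (fun s => F s * u s)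
      (-(L * (h s * gg p (u s))) * u s + F s * (F s / h s)) s := fun s =>
    (X.S.dF s).mul (X.S.du s)
  have hc1 : Continuous fun s => -(L * (h s * gg p (u s))) * u s := X.cfl.mul X.cu
  have hc2 : Continuous fun s => F s * (F s / h s) := X.cF.mul X.cFh
  have hc : Continuous fun s => -(L * (h s * gg p (u s))) * u s + F s * (F s / h s) :=
    hc1.add hc2
  have e := intervalIntegral.integral_eq_sub_of_hasDerivAt (a := 0) (b := ℓ)
    (fun r _ => hd r) (hc.intervalIntegrable _ _)
  have hu : u ℓ = u 0 := by simpa using X.S.per 0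
  have hF : F ℓ = F 0 := by simpa using X.S.perF 0
  rw [hu, hF, sub_self, intervalIntegral.integral_add (hc1.intervalIntegrable _ _)
    (hc2.intervalIntegrable _ _)] at e
  have e1 : (∫ r in (0:ℝ)..ℓ, -(L * (h r * gg p (u r))) * u r)
      = -(L * ∫ r in (0:ℝ)..ℓ, h r * (gg p (u r) * u r)) := by
    rw [← intervalIntegral.integral_const_mul, ← intervalIntegral.integral_neg]
    refine intervalIntegral.integral_congr fun r _ => ?_
    show -(L * (h r * gg p (u r))) * u r = -(L * (h r * (gg p (u r) * u r)))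
    ring
  have e2 : (∫ r in (0:ℝ)..ℓ, F r * (F r / h r)) = En h u 0 ℓ := by
    rw [X.En_eq]
    refine intervalIntegral.integral_congr fun r _ => ?_
    show F r * (F r / h r) = F r ^ 2 / h r
    ring
  rw [e1, e2] at e
  linarith

lemma gg_mul_self (x : ℝ) : gg p x * x = x ^ 2 - |x| ^ (p + 1) := by
  have := sp_mul_self (p := p) (x := x) X.hp
  unfold gg
  rw [sub_mul, this]
  ring

lemma energy_le : En h u 0 ℓ ≤ L * Sm h u 0 ℓ := by
  rw [X.energy]
  refine mul_le_mul_of_nonneg_left ?_ X.hL
  unfold Sm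
  refine intervalIntegral.integral_mono_on X.hℓ.le
    ((X.hc.mul (X.cg.mul X.cu)).intervalIntegrable _ _)
    ((X.hc.mul (X.cu.pow 2)).intervalIntegrable _ _) fun r _ => ?_
  refine mul_le_mul_of_nonneg_left ?_ (X.hpos r).le
  rw [X.gg_mul_self]
  have := Real.rpow_nonneg (abs_nonneg (u r)) (p + 1)
  linarith

/-- a bound for the flux at `c` from the energy in the neighbouring neck `[a, b]` -/
lemma neck {a b c k D E : ℝ} (hab : a < b) (hk : ∀ r ∈ Icc a b, h r ≤ k)
    (hD : ∀ r ∈ Icc a b, |F c - F r| ≤ D) (hE : En h u a b ≤ E) :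
    (b - a) * F c ^ 2 ≤ 2 * k * E + 2 * D ^ 2 * (b - a) := by
  have hk0 : 0 < k := (X.hpos a).trans_le (hk a (left_mem_Icc.2 hab.le))
  have h1 : (∫ r in a..b, F r ^ 2) ≤ k * E := by
    calc (∫ r in a..b, F r ^ 2) ≤ ∫ r in a..b, k * (F r ^ 2 / h r) := by
          refine intervalIntegral.integral_mono_on hab.le ((X.cF.pow 2).intervalIntegrable _ _)
            ((continuous_const.mul X.cF2h).intervalIntegrable _ _) fun r hr => ?_
          have h0 := X.hpos r
          have : F r ^ 2 = h r * (F r ^ 2 / h r) := by field_simp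
          calc F r ^ 2 = h r * (F r ^ 2 / h r) := this
            _ ≤ k * (F r ^ 2 / h r) :=
              mul_le_mul_of_nonneg_right (hk r hr) (div_nonneg (sq_nonneg _) h0.le)
      _ = k * En h u a b := by rw [intervalIntegral.integral_const_mul, X.En_eq]
      _ ≤ k * E := mul_le_mul_of_nonneg_left hE hk0.le
  have h2 : (∫ _r in a..b, F c ^ 2) ≤ ∫ r in a..b, (2 * F r ^ 2 + 2 * D ^ 2) := by
    refine intervalIntegral.integral_mono_on hab.le (continuous_const.intervalIntegrable _ _)
      (((continuous_const.mul (X.cF.pow 2)).add continuous_const).intervalIntegrable _ _)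
      fun r hr => ?_
    have h3 := hD r hr
    have h4 : (F c - F r) ^ 2 ≤ D ^ 2 := sq_le_sq' (by linarith [abs_le.1 h3]) (abs_le.1 h3).2
    nlinarith [sq_nonneg (F c - 2 * F r)]
  have hc1 : Continuous fun r => 2 * F r ^ 2 := continuous_const.mul (X.cF.pow 2)
  have hc2 : Continuous fun _r : ℝ => 2 * D ^ 2 := continuous_const
  rw [intervalIntegral.integral_const, smul_eq_mul,
    intervalIntegral.integral_add (hc1.intervalIntegrable _ _)
      (hc2.intervalIntegrable _ _), intervalIntegral.integral_const_mul,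
    intervalIntegral.integral_const, smul_eq_mul] at h2
  nlinarith

/-- flux through a lump where `h` is the constant `k` -/
lemma lump {a b k x D : ℝ} (hab : a ≤ b) (hk : ∀ r ∈ Icc a b, h r = k)
    (hD : ∀ r ∈ Icc a b, |gg p (u r) - gg p x| ≤ D) :
    |F b - F a + L * (k * (b - a)) * gg p x| ≤ L * (k * (b - a)) * D := by
  have hk0 : 0 < k := by rw [← hk a (left_mem_Icc.2 hab)]; exact X.hpos a
  rw [X.diff_F]
  have e1 : (∫ r in a..b, -(L * (h r * gg p (u r)))) = ∫ r in a..b, -(L * k) * gg p (u r) := by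
    refine intervalIntegral.integral_congr fun r hr => ?_
    rw [uIcc_of_le hab] at hr
    show -(L * (h r * gg p (u r))) = -(L * k) * gg p (u r)
    rw [hk r hr]; ring
  have e2 : (∫ r in a..b, -(L * k) * gg p (u r)) + L * (k * (b - a)) * gg p x
      = -(L * k) * ∫ r in a..b, (gg p (u r) - gg p x) := by
    rw [intervalIntegral.integral_sub (X.cg.intervalIntegrable _ _)
      (continuous_const.intervalIntegrable _ _), intervalIntegral.integral_const_mul,
      intervalIntegral.integral_const, smul_eq_mul]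
    ring
  rw [e1, e2, abs_mul, abs_neg, abs_of_nonneg (mul_nonneg X.hL hk0.le)]
  have e3 : |∫ r in a..b, (gg p (u r) - gg p x)| ≤ D * (b - a) := by
    calc |∫ r in a..b, (gg p (u r) - gg p x)| ≤ ∫ r in a..b, |gg p (u r) - gg p x| :=
          intervalIntegral.abs_integral_le_integral_abs hab
      _ ≤ ∫ r in a..b, D := intervalIntegral.integral_mono_on hab
          ((X.cg.sub continuous_const).abs.intervalIntegrable _ _)
          (continuous_const.intervalIntegrable _ _) hD
      _ = D * (b - a) := by rw [intervalIntegral.integral_const, smul_eq_mul]; ring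
  calc L * k * |∫ r in a..b, (gg p (u r) - gg p x)| ≤ L * k * (D * (b - a)) :=
        mul_le_mul_of_nonneg_left e3 (mul_nonneg X.hL hk0.le)
    _ = _ := by ring

end Ctx

lemma abs_le_of_sq {d A e : ℝ} (hA : 0 ≤ A) (he : 0 ≤ e) (h : d ^ 2 ≤ A * e ^ 2) :
    |d| ≤ (1 + A) * e := by
  refine abs_le_of_sq_le_sq ?_ (by positivity)
  calc d ^ 2 ≤ A * e ^ 2 := h
    _ ≤ ((1 + A) * e) ^ 2 := by
      have : A ≤ (1 + A) ^ 2 := by nlinarith
      calc A * e ^ 2 ≤ (1 + A) ^ 2 * e ^ 2 := mul_le_mul_of_nonneg_right this (sq_nonneg _)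
        _ = _ := by ring

/-- `|g(u) - g(x)|` when `|u - x| ≤ C ε`, `C ≥ 1`, `ε ≤ 1` -/
lemma gg_close {p u x C ε : ℝ} (hp : 0 < p) (hp1 : p < 1) (hC : 1 ≤ C) (hε : 0 < ε)
    (hε1 : ε ≤ 1) (h : |u - x| ≤ C * ε) : |gg p u - gg p x| ≤ 3 * C * ε ^ p := by
  have h1 := abs_gg_sub_le hp hp1 u x
  have h2 : ε ≤ ε ^ p := by
    have := Real.rpow_le_rpow_of_exponent_ge hε hε1 hp1.le
    rwa [Real.rpow_one] at this
  have h3 : |u - x| ^ p ≤ C * ε ^ p := by
    calc |u - x| ^ p ≤ (C * ε) ^ p := Real.rpow_le_rpow (abs_nonneg _) h hp.le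
      _ = C ^ p * ε ^ p := Real.mul_rpow (by linarith) hε.le
      _ ≤ C * ε ^ p := by
        refine mul_le_mul_of_nonneg_right ?_ (Real.rpow_nonneg hε.le _)
        have := Real.rpow_le_rpow_of_exponent_le hC hp1.le
        rwa [Real.rpow_one] at this
  have h4 : C * ε ≤ C * ε ^ p := mul_le_mul_of_nonneg_left h2 (by linarith)
  linarith

end Pool.Agent.Lib.MP_e46711_an.H55
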