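import Pool.Agent.Lib.MP_e46711_an.H55.Jensen

/-!
# MP_e46711_an, module C8: `T1bStatement`
-/

open Set Filter Topology MeasureTheory
open scoped ContDiff

namespace Pool.Agent.Lib.MP_e46711_an.H55

open Pool.Agent.Lib.MP_e46711_an

lemma Sol.neg {p lam ℓ : ℝ} {h u F : ℝ → ℝ} (S : Sol p lam ℓ h u F) :
    Sol p lam ℓ h (fun s => -u s) (fun s => -F s) where
  per s := by rw [S.per]
  perF s := by rw [S.perF]
  du s := by
    have := (S.du s).neg
    rw [← neg_div] at this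
    exact this
  dF s := by
    have := (S.dF s).neg
    rw [gg_neg]
    have e : -(lam * (h s * -gg p (u s))) = - -(lam * (h s * gg p (u s))) := by ring
    rw [e]
    exact this

/-- `E = L (S - Z)` -/
lemma Ctx.energy_SZ {p L ℓ : ℝ} {h u F : ℝ → ℝ} (X : Ctx p L ℓ h u F) :
    En h u 0 ℓ = L * (Sm h u 0 ℓ - Zm p h u 0 ℓ) := by
  have hp := X.hp
  have c1 : Continuous fun r => h r * u r ^ 2 := X.hc.mul (X.cu.pow 2)
  have c2 : Continuous fun r => h r * |u r| ^ (p + 1) :=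
    X.hc.mul (X.cu.abs.rpow_const fun _ => Or.inr (by linarith))
  rw [X.energy]
  congr 1
  unfold Sm Zm
  rw [← intervalIntegral.integral_sub (c1.intervalIntegrable _ _) (c2.intervalIntegrable _ _)]
  refine intervalIntegral.integral_congr fun r _ => ?_
  show h r * (gg p (u r) * u r) = h r * u r ^ 2 - h r * |u r| ^ (p + 1)
  rw [X.gg_mul_self]
  ring

lemma per_reduce {ℓ : ℝ} {u : ℝ → ℝ} (hℓ : 0 < ℓ) (hu : ∀ s, u (s + ℓ) = u s) (s : ℝ) :
    ∃ t ∈ Icc 0 ℓ, u s = u t := by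
  have hp : Function.Periodic u ℓ := hu
  obtain ⟨t, ht, e⟩ := hp.exists_mem_Ico₀ hℓ s
  exact ⟨t, ⟨ht.1, ht.2.le⟩, e⟩

/-- the averages are bounded by the mass `Z` -/
lemma av_bound (P : Par) {K ε : ℝ} (hK : 0 < K) (hε : 0 < ε) {h : ℝ → ℝ} (R : P.IsRing ε h)
    {u : ℝ → ℝ} (hu : Continuous u) (hZ : Zm P.p h u 0 (P.ell ε) ≤ K / ε) :
    |P.av ε u| ≤ 1 + K / P.M + K / P.m ∧ |P.bv ε u| ≤ 1 + K / P.M + K / P.m := by
  have J := (jensen_ring P hε R hu).trans hZ
  have hM := P.hM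
  have hm := P.hm
  have hp := P.hp0
  have p1 : 0 ≤ |P.av ε u| ^ (P.p + 1) := Real.rpow_nonneg (abs_nonneg _) _
  have p2 : 0 ≤ |P.bv ε u| ^ (P.p + 1) := Real.rpow_nonneg (abs_nonneg _) _
  have key : ∀ a k : ℝ, 0 < k → k / ε * |a| ^ (P.p + 1) ≤ K / ε → |a| ≤ 1 + K / k := by
    intro a k hk h1
    have h2 : |a| ^ (P.p + 1) ≤ K / k := by
      rw [le_div_iff₀ hk]
      rw [div_mul_eq_mul_div, div_le_div_iff_of_pos_right hε] at h1
      linarith
    by_contra hc
    rw [not_le] at hc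
    have h3 : 0 < K / k := by positivity
    have h4 : 1 ≤ |a| := by linarith
    have h5 := Real.rpow_le_rpow_of_exponent_le h4 (by linarith : (1:ℝ) ≤ P.p + 1)
    rw [Real.rpow_one] at h5
    linarith
  have q1 : 0 < K / P.M := by positivity
  have q2 : 0 < K / P.m := by positivity
  have r1 : 0 ≤ P.M / ε * |P.av ε u| ^ (P.p + 1) := by positivity
  have r2 : 0 ≤ P.m / ε * |P.bv ε u| ^ (P.p + 1) := by positivity
  constructor
  · have := key (P.av ε u) P.M hM (by linarith)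
    linarith
  · have := key (P.bv ε u) P.m hm (by linarith)
    linarith

/-- small averages are excluded -/
lemma small_excluded (P : Par) {δ ε : ℝ} (hδ : 0 < δ) (hε : 0 < ε) (hε1 : ε ≤ 1) {h u F : ℝ → ℝ}
    (R : P.IsRing ε h) {L : ℝ} (hL0 : 0 < L) (hL : L ≤ P.L2) (S : Sol P.p L (P.ell ε) h u F)
    (hq : δ * En h u 0 (P.ell ε) + ((1 - 1 / 2) * (P.av ε u - P.bv ε u) ^ 2
        - (L + 1 / 2) * (P.M * P.av ε u ^ 2 + P.m * P.bv ε u ^ 2)) / ε
      ≤ En h u 0 (P.ell ε) - L * Sm h u 0 (P.ell ε))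
    (ha : |P.av ε u| ^ (1 - P.p) ≤ L / (2 * (L + 1 / 2)))
    (hb : |P.bv ε u| ^ (1 - P.p) ≤ L / (2 * (L + 1 / 2))) : ∀ s, u s = 0 := by
  have Y : RCtx P ε L h u F := ⟨hε, hε1, R, ⟨hL0.le, hL⟩, S⟩
  have X := Y.ctx
  have hM := P.hM
  have hm := P.hm
  have hp := P.hp0
  have hp1 := P.hp1
  have J := jensen_ring P hε R X.cu
  have eE := X.energy_SZ
  have hE0 := X.En_nonneg X.hℓ.le
  have key : ∀ a : ℝ, |a| ^ (1 - P.p) ≤ L / (2 * (L + 1 / 2)) →
      (L + 1 / 2) * a ^ 2 ≤ L / 2 * |a| ^ (P.p + 1) := by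
    intro a h1
    have e : a ^ 2 = |a| ^ (P.p + 1) * |a| ^ (1 - P.p) := by
      rcases eq_or_ne a 0 with h0 | h0
      · subst h0
        simp [Real.zero_rpow (by linarith : P.p + 1 ≠ 0)]
      · rw [← Real.rpow_add (abs_pos.2 h0), show P.p + 1 + (1 - P.p) = ((2:ℕ):ℝ) by
          push_cast; ring, Real.rpow_natCast, sq_abs]
    have h2 : 0 ≤ |a| ^ (P.p + 1) := Real.rpow_nonneg (abs_nonneg _) _
    rw [e]
    calc (L + 1 / 2) * (|a| ^ (P.p + 1) * |a| ^ (1 - P.p))
        ≤ (L + 1 / 2) * (|a| ^ (P.p + 1) * (L / (2 * (L + 1 / 2)))) :=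
          mul_le_mul_of_nonneg_left (mul_le_mul_of_nonneg_left h1 h2) (by linarith)
      _ = L / 2 * |a| ^ (P.p + 1) := by field_simp
  set A := |P.av ε u| ^ (P.p + 1) with hA
  set B := |P.bv ε u| ^ (P.p + 1) with hB
  have A0 : 0 ≤ A := Real.rpow_nonneg (abs_nonneg _) _
  have B0 : 0 ≤ B := Real.rpow_nonneg (abs_nonneg _) _
  have kA := key _ ha
  have kB := key _ hb
  rw [← hA] at kA
  rw [← hB] at kB
  set Z := Zm P.p h u 0 (P.ell ε) with hZ
  have Z0 : 0 ≤ Z := le_trans (by positivity) J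
  have main : L / 2 * Z + δ * En h u 0 (P.ell ε) ≤ 0 := by
    have t1 : (L + 1 / 2) * (P.M * P.av ε u ^ 2 + P.m * P.bv ε u ^ 2)
        ≤ L / 2 * (P.M * A + P.m * B) := by
      have b1 := mul_le_mul_of_nonneg_left kA hM.le
      have b2 := mul_le_mul_of_nonneg_left kB hm.le
      nlinarith
    have t2 : (P.M * A + P.m * B) / ε ≤ Z := by
      calc _ = P.M / ε * A + P.m / ε * B := by ring
        _ ≤ Z := J
    have t3 : - (L / 2 * Z) ≤ ((1 - 1 / 2) * (P.av ε u - P.bv ε u) ^ 2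
        - (L + 1 / 2) * (P.M * P.av ε u ^ 2 + P.m * P.bv ε u ^ 2)) / ε := by
      have t4 : - (L / 2 * (P.M * A + P.m * B)) ≤ (1 - 1 / 2) * (P.av ε u - P.bv ε u) ^ 2
        - (L + 1 / 2) * (P.M * P.av ε u ^ 2 + P.m * P.bv ε u ^ 2) := by
        have := sq_nonneg (P.av ε u - P.bv ε u)
        linarith
      have t5 := div_le_div_of_nonneg_right t4 hε.le
      have t6 : L / 2 * ((P.M * A + P.m * B) / ε) ≤ L / 2 * Z :=
        mul_le_mul_of_nonneg_left t2 (by linarith)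
      have t7 : - (L / 2 * (P.M * A + P.m * B)) / ε
          = - (L / 2 * ((P.M * A + P.m * B) / ε)) := by ring
      rw [t7] at t5
      linarith
    have t8 : En h u 0 (P.ell ε) - L * Sm h u 0 (P.ell ε) = - (L * Z) := by
      rw [eE]; ring
    rw [t8] at hq
    linarith
  have LZ : 0 ≤ L / 2 * Z := by positivity
  have dE : 0 ≤ δ * En h u 0 (P.ell ε) := by positivity
  have E0 : En h u 0 (P.ell ε) = 0 := by
    have : δ * En h u 0 (P.ell ε) = 0 := le_antisymm (by linarith) dE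
    exact (mul_eq_zero.1 this).resolve_left hδ.ne'
  have Z00 : Z = 0 := by
    have : L / 2 * Z = 0 := le_antisymm (by linarith) LZ
    exact (mul_eq_zero.1 this).resolve_left (by linarith)
  have hcst : ∀ t ∈ Icc 0 (P.ell ε), u t = u 0 := by
    intro t ht
    have h1 := X.CS ht.1
    have h2 : En h u 0 t = 0 :=
      le_antisymm ((X.En_mono le_rfl ht.1 ht.2).trans E0.le) (X.En_nonneg ht.1)
    rw [h2, mul_zero] at h1
    have := pow_eq_zero_iff (two_ne_zero) |>.1 (le_antisymm h1 (sq_nonneg _))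
    linarith
  have hτ := P.hτ
  have hε3 : 0 < ε ^ 3 := pow_pos hε 3
  have hav : |P.av ε u - u 0| ≤ 0 := by
    refine Y.avH fun s hs => ?_
    have hs' : s ∈ Icc 0 (P.ell ε) := by
      rcases hs with hs | hs
      · exact ⟨hs.1, hs.2.trans (by unfold Par.s1 Par.ell; linarith)⟩
      · exact ⟨le_trans (by unfold Par.s14; positivity) hs.1, hs.2⟩
    rw [hcst s hs', sub_self, abs_zero]
  have hav' : P.av ε u = u 0 := by
    have := abs_eq_zero.1 (le_antisymm hav (abs_nonneg _))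
    linarith
  have A00 : A = 0 := by
    have t1 : P.M / ε * A ≤ 0 := by
      have : 0 ≤ P.m / ε * B := by positivity
      rw [Z00] at J
      linarith
    have t2 : P.M / ε * A = 0 := le_antisymm t1 (by positivity)
    exact (mul_eq_zero.1 t2).resolve_left (by positivity)
  have a0 : P.av ε u = 0 := by
    rw [hA, Real.rpow_eq_zero (abs_nonneg _) (by linarith)] at A00
    exact abs_eq_zero.1 A00
  intro s
  obtain ⟨t, ht, e⟩ := per_reduce X.hℓ S.per s
  rw [e, hcst t ht, ← hav', a0]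

/-- Module C8. -/
theorem window_holds (hQ : QFavStatement) (hA : ApproxStatement) (hC : CompareStatement)
    (hB : AliveBarrier) : T1bStatement := by
  intro P hnet K hK
  by_contra hcon
  rw [not_eventually] at hcon
  have hM := P.hM
  have hm := P.hm
  have hp := P.hp0
  have hp1 := P.hp1
  have hL0 := P.hL0
  have hτ := P.hτ
  have hL02 : P.L0 ≤ P.L2 := by linarith [P.hL01, P.hL12]
  set K1 := 1 + K / P.M + K / P.m with hK1
  have K10 : 0 < K1 := by positivity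
  obtain ⟨C, C0, hAp⟩ := hA P K1 K10
  obtain ⟨δ, hδ, hQv⟩ := hQ P (1 / 2) ⟨by norm_num, by norm_num⟩
  have hall := ((hcon.and_eventually hAp).and_eventually hQv).and_eventually
    ((hC P).and (Ioc_mem_nhdsGT (zero_lt_one' ℝ)))
  obtain ⟨e, he, hbad⟩ := exists_seq_forall_of_frequently hall
  have hbad' : ∀ n, ∃ h u F, P.IsRing (e n) h ∧ Sol P.p P.L0 (P.ell (e n)) h u F ∧
      0 ≤ P.av (e n) u ∧ P.t1 * P.av (e n) u ≤ P.bv (e n) u ∧
      P.bv (e n) u ≤ P.t2 * P.av (e n) u ∧ (∃ s, u s ≠ 0) ∧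
      Zm P.p h u 0 (P.ell (e n)) ≤ K / e n ∧ ∃ s, u s ≤ 0 := by
    intro n
    have := (hbad n).1.1.1
    push Not at this
    obtain ⟨h, R, u, F, S, h1, h2, h3, h4, h5, h6⟩ := this
    exact ⟨h, u, F, R, S, h1, h2, h3, h4, h5, h6⟩
  choose h u F R S ha0 hab hab2 hne hZ hneg using hbad'
  have e0 : ∀ n, 0 < e n := fun n => (hbad n).2.2.1
  have e1 : ∀ n, e n ≤ 1 := fun n => (hbad n).2.2.2
  have Y : ∀ n, RCtx P (e n) P.L0 (h n) (u n) (F n) := fun n =>
    ⟨e0 n, e1 n, R n, ⟨hL0.le, hL02⟩, S n⟩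
  have hbnd : ∀ n, |P.av (e n) (u n)| ≤ K1 ∧ |P.bv (e n) (u n)| ≤ K1 := fun n =>
    av_bound P hK (e0 n) (R n) (Y n).ctx.cu (hZ n)
  have app := fun n => (hbad n).1.1.2 (h n) (R n) P.L0 ⟨hL0.le, hL02⟩ (u n) (F n) (S n)
    (hbnd n).1 (hbnd n).2
  -- convergent subsequence
  have hbx : ∀ n, (u n 0, u n (P.s4 (e n))) ∈ Icc (-(K1 + C)) (K1 + C) ×ˢ
      Icc (-(K1 + C)) (K1 + C) := by
    intro n
    have h1 := (app n).2.2.1
    have h2 := (app n).2.2.2.2.1
    have h3 := (hbnd n).1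
    have h4 := (hbnd n).2
    have h5 : C * e n ≤ C := by nlinarith [e1 n, e0 n]
    rw [abs_le] at h1 h2 h3 h4
    refine ⟨⟨?_, ?_⟩, ⟨?_, ?_⟩⟩ <;> simp only <;> linarith [h1.1, h1.2, h2.1, h2.2, h3.1, h3.2,
      h4.1, h4.2]
  obtain ⟨z, -, φ, hφ, hz⟩ := (isCompact_Icc.prod isCompact_Icc).tendsto_subseq hbx
  obtain ⟨x, y⟩ := z
  have hx : Tendsto (fun n => u (φ n) 0) atTop (𝓝 x) := (continuous_fst.tendsto _).comp hz
  have hy : Tendsto (fun n => u (φ n) (P.s4 (e (φ n)))) atTop (𝓝 y) :=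
    (continuous_snd.tendsto _).comp hz
  have heφ : Tendsto (fun n => e (φ n)) atTop (𝓝[>] 0) := he.comp hφ.tendsto_atTop
  have heφ0 : Tendsto (fun n => e (φ n)) atTop (𝓝 0) :=
    heφ.mono_right nhdsWithin_le_nhds
  have hCe : Tendsto (fun n => C * e (φ n)) atTop (𝓝 0) := by
    have := heφ0.const_mul C
    rwa [mul_zero] at this
  have hCp : Tendsto (fun n => C * e (φ n) ^ (min (1 / 2) P.p)) atTop (𝓝 0) := by
    have hc : ContinuousAt (fun t : ℝ => t ^ (min (1 / 2) P.p)) 0 :=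
      Real.continuousAt_rpow_const _ _ (Or.inr (by positivity))
    have h1 := hc.tendsto.comp heφ0
    have h2 := h1.const_mul C
    have h3 : C * ((0:ℝ) ^ (min (1 / 2) P.p)) = 0 := by
      rw [Real.zero_rpow (by positivity), mul_zero]
    rw [h3] at h2
    exact h2
  have ha : Tendsto (fun n => P.av (e (φ n)) (u (φ n))) atTop (𝓝 x) := by
    have h1 : Tendsto (fun n => P.av (e (φ n)) (u (φ n)) - u (φ n) 0) atTop (𝓝 0) :=
      squeeze_zero_norm (fun n => (app (φ n)).2.2.1) hCe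
    have h2 := h1.add hx
    simpa using h2
  have hb : Tendsto (fun n => P.bv (e (φ n)) (u (φ n))) atTop (𝓝 y) := by
    have h1 : Tendsto (fun n => P.bv (e (φ n)) (u (φ n)) - u (φ n) (P.s4 (e (φ n)))) atTop
        (𝓝 0) := squeeze_zero_norm (fun n => (app (φ n)).2.2.2.2.1) hCe
    have h2 := h1.add hy
    simpa using h2
  have x0 : 0 ≤ x := ge_of_tendsto' ha fun n => ha0 _
  have xy1 : P.t1 * x ≤ y := le_of_tendsto_of_tendsto' (ha.const_mul _) hb fun n => hab _
  have xy2 : y ≤ P.t2 * x := le_of_tendsto_of_tendsto' hb (ha.const_mul _) fun n => hab2 _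
  have cg := continuous_gg hp hp1
  have hnet1 : x - y = P.L0 * P.M * gg P.p x := by
    have t1 : Tendsto (fun n => u (φ n) 0 - u (φ n) (P.s4 (e (φ n)))
        - P.L0 * P.M * gg P.p (u (φ n) 0)) atTop (𝓝 (x - y - P.L0 * P.M * gg P.p x)) :=
      (hx.sub hy).sub (((cg.tendsto x).comp hx).const_mul _)
    have t2 : Tendsto (fun n => u (φ n) 0 - u (φ n) (P.s4 (e (φ n)))
        - P.L0 * P.M * gg P.p (u (φ n) 0)) atTop (𝓝 0) :=
      squeeze_zero_norm (fun n => (app (φ n)).2.2.2.2.2.2.1) hCp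
    have := tendsto_nhds_unique t1 t2
    linarith
  have hnet2 : y - x = P.L0 * P.m * gg P.p y := by
    have t1 : Tendsto (fun n => u (φ n) (P.s4 (e (φ n))) - u (φ n) 0
        - P.L0 * P.m * gg P.p (u (φ n) (P.s4 (e (φ n))))) atTop
        (𝓝 (y - x - P.L0 * P.m * gg P.p y)) :=
      (hy.sub hx).sub (((cg.tendsto y).comp hy).const_mul _)
    have t2 : Tendsto (fun n => u (φ n) (P.s4 (e (φ n))) - u (φ n) 0
        - P.L0 * P.m * gg P.p (u (φ n) (P.s4 (e (φ n))))) atTop (𝓝 0) :=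
      squeeze_zero_norm (fun n => (app (φ n)).2.2.2.2.2.2.2) hCp
    have := tendsto_nhds_unique t1 t2
    linarith
  rcases hnet.N2b x y x0 xy1 xy2 ⟨hnet1, hnet2⟩ with ⟨hx0, hy0⟩ | halive
  · -- the case `(0, 0)`
    subst hx0
    subst hy0
    have hc : ContinuousAt (fun t : ℝ => |t| ^ (1 - P.p)) 0 :=
      (continuous_abs.rpow_const fun _ => Or.inr (by linarith)).continuousAt
    have hc0 : |(0:ℝ)| ^ (1 - P.p) = 0 := by
      simp [Real.zero_rpow (by linarith : 1 - P.p ≠ 0)]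
    have κ0 : 0 < P.L0 / (2 * (P.L0 + 1 / 2)) := by positivity
    have ea : ∀ᶠ n in atTop, |P.av (e (φ n)) (u (φ n))| ^ (1 - P.p)
        < P.L0 / (2 * (P.L0 + 1 / 2)) := by
      have := hc.tendsto.comp ha
      rw [hc0] at this
      exact this.eventually (gt_mem_nhds κ0)
    have eb : ∀ᶠ n in atTop, |P.bv (e (φ n)) (u (φ n))| ^ (1 - P.p)
        < P.L0 / (2 * (P.L0 + 1 / 2)) := by
      have := hc.tendsto.comp hb
      rw [hc0] at this
      exact this.eventually (gt_mem_nhds κ0)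
    obtain ⟨n, na, nb⟩ := (ea.and eb).exists
    have Yn := Y (φ n)
    have hLip : Lip (u (φ n)) 0 (P.ell (e (φ n))) := by
      have hcd : ContDiff ℝ 1 (u (φ n)) := by
        rw [contDiff_one_iff_deriv]
        refine ⟨fun s => (Yn.S.du s).differentiableAt, ?_⟩
        have : deriv (u (φ n)) = fun s => F (φ n) s / h (φ n) s :=
          funext fun s => Yn.ctx.deriv_u s
        rw [this]
        exact Yn.ctx.cFh
      obtain ⟨K', hK'⟩ := (hcd.contDiffOn (s := Icc 0 (P.ell (e (φ n))))).exists_lipschitzOnWith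
        one_ne_zero (convex_Icc _ _) isCompact_Icc
      exact ⟨K', hK'⟩
    have q := (hbad (φ n)).1.2 (h (φ n)) (R (φ n)) (u (φ n)) hLip Yn.uℓ.symm P.L0
      ⟨hL0.le, hL02⟩
    have := small_excluded P hδ (e0 (φ n)) (e1 (φ n)) (R (φ n)) hL0 hL02 (S (φ n)) q na.le nb.le
    obtain ⟨s, hs⟩ := hne (φ n)
    exact hs (this s)
  · -- the alive case
    obtain ⟨ρ, hρ, hU⟩ := hB P x y halive
    have xpos : 0 < x := halive.1
    have ypos : 0 < y := by
      have := P.ht1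
      nlinarith
    have ev1 := heφ.eventually hU
    set r := min (min ρ x) y / 2 with hr
    have r0 : 0 < r := by positivity
    have rρ : 2 * r ≤ ρ := by
      have := min_le_left (min ρ x) y
      have := min_le_left ρ x
      linarith
    have rx : 2 * r ≤ x := by
      have := min_le_left (min ρ x) y
      have := min_le_right ρ x
      linarith
    have ry : 2 * r ≤ y := by
      have := min_le_right (min ρ x) y
      linarith
    have ev2 : ∀ᶠ n in atTop, C * e (φ n) < r := hCe.eventually (gt_mem_nhds r0)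
    have ev3 : ∀ᶠ n in atTop, x - r < u (φ n) 0 := hx.eventually (lt_mem_nhds (by linarith))
    have ev4 : ∀ᶠ n in atTop, y - r < u (φ n) (P.s4 (e (φ n))) :=
      hy.eventually (lt_mem_nhds (by linarith))
    obtain ⟨n, ⟨n1, n2⟩, n3, n4⟩ := ((ev1.and ev2).and (ev3.and ev4)).exists
    have Yn := Y (φ n)
    have hε := e0 (φ n)
    have hε3 := Yn.hε3
    obtain ⟨U, hsup, hU14, hU5, hUpos⟩ := n1 (h (φ n)) (R (φ n))
    obtain ⟨a1, a2, a3, a4, a5, a6, a7, a8⟩ := app (φ n)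
    set ε := e (φ n) with hεdef
    have m14 : P.s14 ε ∈ Icc 0 (P.s1 ε) ∪ Icc (P.s14 ε) (P.ell ε) :=
      Or.inr (left_mem_Icc.2 (by unfold Par.s14 Par.ell; linarith))
    have m5 : P.s5 ε ∈ Icc (P.s4 ε) (P.s5 ε) :=
      right_mem_Icc.2 (by unfold Par.s4 Par.s5; linarith)
    have b14 := (abs_le.1 (a2 _ m14)).1
    have b5 := (abs_le.1 (a4 _ m5)).1
    have cmp := (hbad (φ n)).2.1 (h (φ n)) (R (φ n)) P.L0 ⟨hL0.le, hL02⟩ _ _
      (Sol.neg (S (φ n))) (fun s => -U s) hsup (by linarith) (by linarith)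
    have pos : ∀ s ∈ Icc 0 (P.ell ε), 0 < u (φ n) s := by
      intro s hs
      rcases le_total s (P.s1 ε) with h1 | h1
      · have := (abs_le.1 (a2 s (Or.inl ⟨hs.1, h1⟩))).1
        linarith
      rcases le_total s (P.s4 ε) with h4 | h4
      · have := a6 s ⟨h1, h4⟩
        have hmin : r ≤ min (u (φ n) 0) (u (φ n) (P.s4 ε)) := le_min (by linarith) (by linarith)
        linarith
      rcases le_total s (P.s5 ε) with h5 | h5
      · have := (abs_le.1 (a4 s ⟨h4, h5⟩)).1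
        linarith
      rcases le_total s (P.s14 ε) with h14 | h14
      · have c1 := cmp s ⟨h5, h14⟩
        have c2 := hUpos s ⟨h5, h14⟩
        linarith
      · have := (abs_le.1 (a2 s (Or.inr ⟨h14, hs.2⟩))).1
        linarith
    obtain ⟨s, hs⟩ := hneg (φ n)
    obtain ⟨t, ht, et⟩ := per_reduce Yn.ctx.hℓ (S (φ n)).per s
    have := pos t ht
    rw [et] at hs
    linarith

end Pool.Agent.Lib.MP_e46711_an.H55
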